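import Pool.Agent.Lib.MP_dcaa2d_sau.Defs

/-!
# Simple facts on `rad`, `hgt`, `low`
-/

set_option autoImplicit false

open MeasureTheory Metric Set Filter Topology
open scoped Pointwise ENNReal NNReal

namespace Pool.Agent.Sausage

theorem rad_pos {b : ℝ} (hb : 0 < b) (t : ℝ) : 0 < rad b t :=
  Real.sqrt_pos.2 (by positivity)

theorem rad_sq (b t : ℝ) : rad b t ^ 2 = b ^ 2 + t ^ 2 :=
  Real.sq_sqrt (by positivity)

theorem rad_nonneg (b t : ℝ) : 0 ≤ rad b t := Real.sqrt_nonneg _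

theorem continuous_rad (b : ℝ) : Continuous (rad b) := by
  unfold rad
  fun_prop

theorem IsProf.continuous {b : ℝ} {ψ : ℝ → ℝ} (h : IsProf b ψ) : Continuous ψ := by
  have : LipschitzWith 1 ψ := LipschitzWith.of_dist_le_mul (by
    intro x y
    simpa [Real.dist_eq] using h.lip x y)
  exact this.continuous

theorem continuous_hgt {ψ : ℝ → ℝ} (h : Continuous ψ) (b : ℝ) : Continuous (hgt ψ b) := by
  unfold hgt
  fun_prop

theorem isClosed_low {ψ : ℝ → ℝ} (h : Continuous ψ) (b : ℝ) : IsClosed (low ψ b) :=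
  isClosed_le (h.max continuous_const) ((continuous_rad b).const_mul _ |>.congr fun _ => rfl)

theorem measurableSet_low {ψ : ℝ → ℝ} (h : Continuous ψ) (b : ℝ) : MeasurableSet (low ψ b) :=
  (isClosed_low h b).measurableSet

theorem hgt_nonneg (ψ : ℝ → ℝ) (b t : ℝ) : 0 ≤ hgt ψ b t := Real.sqrt_nonneg _

theorem hgt_le_rad (ψ : ℝ → ℝ) (b t : ℝ) : hgt ψ b t ≤ rad b t :=
  Real.sqrt_le_sqrt (by nlinarith [sq_nonneg (max (ψ t) 0)])

/-- on `low`, `hgt² = rad² - ψ₊²` -/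
theorem hgt_sq {ψ : ℝ → ℝ} {b t : ℝ} (ht : t ∈ low ψ b) :
    hgt ψ b t ^ 2 = rad b t ^ 2 - (max (ψ t) 0) ^ 2 := by
  have h0 : 0 ≤ max (ψ t) 0 := le_max_right _ _
  have h1 : max (ψ t) 0 ≤ 11 / 25 * rad b t := ht
  have h2 := rad_sq b t
  have h3 := rad_nonneg b t
  rw [hgt, Real.sq_sqrt, h2]
  nlinarith [mul_nonneg h0 h3]

/-- on `low`, `(4/5) rad ≤ hgt ≤ rad` -/
theorem hgt_low {ψ : ℝ → ℝ} {b t : ℝ} (ht : t ∈ low ψ b) :
    4 / 5 * rad b t ≤ hgt ψ b t ∧ hgt ψ b t ≤ rad b t := by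
  refine ⟨?_, hgt_le_rad ψ b t⟩
  have h0 : 0 ≤ max (ψ t) 0 := le_max_right _ _
  have h1 : max (ψ t) 0 ≤ 11 / 25 * rad b t := ht
  have h3 := rad_nonneg b t
  have h4 := hgt_sq ht
  refine abs_le_of_sq_le_sq' ?_ (hgt_nonneg ψ b t) |>.2
  nlinarith

theorem hgt_pos {ψ : ℝ → ℝ} {b t : ℝ} (hb : 0 < b) (ht : t ∈ low ψ b) : 0 < hgt ψ b t := by
  have := (hgt_low ht).1
  have := rad_pos hb t
  linarith

theorem integrable_rad {b : ℝ} (hb : 0 < b) {d : ℕ} (hd : 2 ≤ d) :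
    Integrable fun t : ℝ => ((rad b t)⁻¹) ^ d := by
  have h1 : Integrable fun t : ℝ => (1 + (b⁻¹ * t) ^ 2)⁻¹ :=
    integrable_inv_one_add_sq.comp_mul_left' (by positivity)
  refine (h1.const_mul ((b⁻¹) ^ d)).mono' ?_ ?_
  · exact (((continuous_rad b).inv₀ fun t => (rad_pos hb t).ne').pow d).aestronglyMeasurable
  · refine Eventually.of_forall fun t => ?_
    have h2 : 0 < rad b t := rad_pos hb t
    rw [Real.norm_of_nonneg (by positivity)]
    obtain ⟨k, rfl⟩ := Nat.exists_eq_add_of_le hd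
    have h3 : b ≤ rad b t := by
      refine abs_le_of_sq_le_sq' ?_ (rad_nonneg b t) |>.2
      rw [rad_sq]
      nlinarith [sq_nonneg t]
    have h4 : ((rad b t)⁻¹) ^ k ≤ (b⁻¹) ^ k :=
      pow_le_pow_left₀ (by positivity) (inv_anti₀ hb h3) k
    have h5 : ((rad b t)⁻¹) ^ 2 = (b⁻¹) ^ 2 * (1 + (b⁻¹ * t) ^ 2)⁻¹ := by
      rw [inv_pow, rad_sq]
      field_simp
    calc ((rad b t)⁻¹) ^ (2 + k) = ((rad b t)⁻¹) ^ 2 * ((rad b t)⁻¹) ^ k := pow_add _ _ _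
      _ ≤ ((rad b t)⁻¹) ^ 2 * (b⁻¹) ^ k := mul_le_mul_of_nonneg_left h4 (by positivity)
      _ = (b⁻¹) ^ (2 + k) * (1 + (b⁻¹ * t) ^ 2)⁻¹ := by
        rw [h5, pow_add]
        ring

theorem integrableOn_hgt {ψ : ℝ → ℝ} (h : Continuous ψ) {b : ℝ} (hb : 0 < b) {d : ℕ}
    (hd : 2 ≤ d) : IntegrableOn (fun t : ℝ => ((hgt ψ b t)⁻¹) ^ d) (low ψ b) := by
  refine (((integrable_rad hb hd).const_mul ((5 / 4 : ℝ) ^ d)).integrableOn (s := low ψ b)).mono'
    ?_ ?_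
  · refine ContinuousOn.aestronglyMeasurable ?_ (measurableSet_low h b)
    exact ((continuous_hgt h b).continuousOn.inv₀ fun t ht => (hgt_pos hb ht).ne').pow d
  · refine (ae_restrict_iff' (measurableSet_low h b)).2 (Eventually.of_forall fun t ht => ?_)
    have h1 := hgt_pos hb ht
    have h2 := rad_pos hb t
    rw [Real.norm_of_nonneg (by positivity), ← mul_pow]
    refine pow_le_pow_left₀ (by positivity) ?_ d
    calc (hgt ψ b t)⁻¹ ≤ (4 / 5 * rad b t)⁻¹ := inv_anti₀ (by positivity) (hgt_low ht).1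
      _ = 5 / 4 * (rad b t)⁻¹ := by
        rw [mul_inv]
        norm_num

/-- the difference of the two integrals over `low` -/
theorem sub_integral_eq {ψ : ℝ → ℝ} (h : Continuous ψ) {b : ℝ} (hb : 0 < b) {d : ℕ}
    (hd : 2 ≤ d) (q : ℝ) :
    q * (∫ t in low ψ b, ((hgt ψ b t)⁻¹) ^ d) - ∫ t in low ψ b, ((rad b t)⁻¹) ^ d =
      ∫ t in low ψ b, (q * ((hgt ψ b t)⁻¹) ^ d - ((rad b t)⁻¹) ^ d) := by
  rw [integral_sub ((integrableOn_hgt h hb hd).const_mul q) (integrable_rad hb hd).integrableOn,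
    integral_const_mul]

end Pool.Agent.Sausage
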