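import Pool.Agent.Lib.MP_dcaa2d_sau.A0

/-!
# The integral inequality, the case `ψ 0 ≤ 21/100`
-/

set_option autoImplicit false

open MeasureTheory Metric Set Filter Topology
open scoped Pointwise ENNReal NNReal

namespace Pool.Agent.Sausage

theorem unitD_case1 {d : ℕ} (hd : 2 ≤ d) {q : ℝ} (hq : Num d q) {ψ : ℝ → ℝ} (hψ : IsProf 1 ψ)
    (h0 : ψ 0 ≤ 21 / 100) :
    ∫ t in low ψ 1, ((rad 1 t)⁻¹) ^ d ≤ q * ∫ t in low ψ 1, ((hgt ψ 1 t)⁻¹) ^ d := by
  have hc := hψ.continuous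
  have hintR : Integrable fun t : ℝ => ((rad 1 t)⁻¹) ^ d := integrable_rad one_pos hd
  have hintH := integrableOn_hgt hc one_pos hd
  have hrad1 : ∀ t, 1 ≤ rad 1 t := by
    intro t
    refine abs_le_of_sq_le_sq' ?_ (rad_nonneg 1 t) |>.2
    rw [rad_sq]
    nlinarith [sq_nonneg t]
  have hψI : ∀ t ∈ Icc (0 : ℝ) (23 / 100), t ≤ max (ψ t) 0 ∧ max (ψ t) 0 ≤ 11 / 25 := by
    intro t ht
    have h1 := hψ.ge t
    have h2 := hψ.lip t 0
    rw [sub_zero, abs_of_nonneg ht.1] at h2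
    have h3 := (abs_le.1 h2).2
    refine ⟨h1.trans (le_max_left _ _), max_le ?_ (by norm_num)⟩
    have := ht.2
    linarith
  have hI : Icc (0 : ℝ) (23 / 100) ⊆ low ψ 1 := by
    intro t ht
    have h1 := (hψI t ht).2
    have h2 := hrad1 t
    show max (ψ t) 0 ≤ 11 / 25 * rad 1 t
    linarith
  set g : ℝ → ℝ := fun t => q * ((hgt ψ 1 t)⁻¹) ^ d - ((rad 1 t)⁻¹) ^ d with hg
  have hintg : IntegrableOn g (low ψ 1) := (hintH.const_mul q).sub hintR.integrableOn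
  have hkey := sub_integral_eq hc one_pos hd q
  have hsplit := integral_inter_add_sdiff (μ := volume) (f := g) (s := low ψ 1)
    (measurableSet_Icc : MeasurableSet (Icc (0 : ℝ) (23 / 100))) hintg
  rw [inter_eq_right.2 hI] at hsplit
  have hIfin : volume (Icc (0 : ℝ) (23 / 100)) ≠ ⊤ := by
    rw [Real.volume_Icc]
    exact ENNReal.ofReal_ne_top
  have hintq : IntegrableOn (fun _ : ℝ => q) (Icc (0 : ℝ) (23 / 100)) :=
    integrableOn_const hIfin
  have hA : ∫ t in Icc (0 : ℝ) (23 / 100), (q - ((rad 1 t)⁻¹) ^ d) ≤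
      ∫ t in Icc (0 : ℝ) (23 / 100), g t := by
    refine setIntegral_mono_on (hintq.sub hintR.integrableOn) (hintg.mono_set hI) measurableSet_Icc ?_
    intro t ht
    have h1 := hI ht
    have h2 := hgt_pos one_pos h1
    have h3 := hgt_sq h1
    have h4 := (hψI t ht).1
    have h5 : hgt ψ 1 t ≤ 1 := by
      refine abs_le_of_sq_le_sq' ?_ zero_le_one |>.2
      rw [h3, rad_sq]
      have : t ^ 2 ≤ (max (ψ t) 0) ^ 2 := pow_le_pow_left₀ ht.1 h4 2
      linarith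
    have h6 : (1 : ℝ) ≤ ((hgt ψ 1 t)⁻¹) ^ d := one_le_pow₀ ((one_le_inv₀ h2).2 h5)
    have h7 : q * 1 ≤ q * ((hgt ψ 1 t)⁻¹) ^ d := mul_le_mul_of_nonneg_left h6 hq.pos.le
    simp only [hg]
    linarith
  have hA2 : ∫ t in Icc (0 : ℝ) (23 / 100), (q - ((rad 1 t)⁻¹) ^ d) =
      23 / 100 * q - ∫ t in Icc (0 : ℝ) (23 / 100), ((rad 1 t)⁻¹) ^ d := by
    rw [integral_sub hintq hintR.integrableOn, setIntegral_const, Measure.real, Real.volume_Icc,
      ENNReal.toReal_ofReal (by norm_num)]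
    simp
  have hB : ∫ t in low ψ 1 \ Icc (0 : ℝ) (23 / 100), -((1 - q) * ((rad 1 t)⁻¹) ^ d) ≤
      ∫ t in low ψ 1 \ Icc (0 : ℝ) (23 / 100), g t := by
    refine setIntegral_mono_on ((hintR.const_mul (1 - q)).neg.integrableOn)
      (hintg.mono_set sdiff_subset) ((measurableSet_low hc 1).diff measurableSet_Icc) ?_
    intro t ht
    have h1 := ht.1
    have h2 := hgt_pos one_pos h1
    have h3 := (hgt_low h1).2
    have h6 : ((rad 1 t)⁻¹) ^ d ≤ ((hgt ψ 1 t)⁻¹) ^ d :=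
      pow_le_pow_left₀ (inv_nonneg.2 (rad_nonneg 1 t)) (inv_anti₀ h2 h3) d
    have h7 := mul_le_mul_of_nonneg_left h6 hq.pos.le
    simp only [hg]
    linarith
  have hB2 : ∫ t in low ψ 1 \ Icc (0 : ℝ) (23 / 100), -((1 - q) * ((rad 1 t)⁻¹) ^ d) =
      -((1 - q) * ∫ t in low ψ 1 \ Icc (0 : ℝ) (23 / 100), ((rad 1 t)⁻¹) ^ d) := by
    rw [integral_neg, integral_const_mul]
  have hB3 : ∫ t in low ψ 1 \ Icc (0 : ℝ) (23 / 100), ((rad 1 t)⁻¹) ^ d ≤
      ∫ t in (Icc (0 : ℝ) (23 / 100))ᶜ, ((rad 1 t)⁻¹) ^ d := by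
    refine setIntegral_mono_set hintR.integrableOn ?_ ?_
    · exact Eventually.of_forall fun t => pow_nonneg (inv_nonneg.2 (rad_nonneg 1 t)) d
    · exact (HasSubset.Subset.eventuallyLE fun t ht => ht.2)
  have hn1 := hq.n1
  rw [intervalIntegral.integral_of_le (by norm_num), ← integral_Icc_eq_integral_Ioc] at hn1
  have hq1 := hq.le_one
  have hB4 := mul_le_mul_of_nonneg_left hB3 (show 0 ≤ 1 - q by linarith)
  have hfin : 0 ≤ ∫ t in low ψ 1, g t := by
    rw [← hsplit]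
    rw [hA2] at hA
    rw [hB2] at hB
    linarith
  simp only [hg] at hfin
  linarith

end Pool.Agent.Sausage
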