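import Pool.Agent.Lib.MP_dcaa2d_sau.A0

/-!
# The integral inequality: the case `21/100 < ψ 0`
-/

set_option autoImplicit false

open MeasureTheory Metric Set Filter Topology
open scoped Pointwise ENNReal NNReal

namespace Pool.Agent.Sausage

namespace A2

/-- a crossing interval -/
theorem crossing {f : ℝ → ℝ} (hf : Continuous f) {a b α β : ℝ} (hab : a ≤ b) (hα : f a ≤ α)
    (hαβ : α < β) (hβ : β ≤ f b) : ∃ u₁ u₂, a ≤ u₁ ∧ u₁ ≤ u₂ ∧ u₂ ≤ b ∧ f u₁ = α ∧ f u₂ = β ∧
      ∀ u ∈ Icc u₁ u₂, α ≤ f u ∧ f u ≤ β := by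
  have hS : IsCompact (Icc a b ∩ {x | β ≤ f x}) :=
    isCompact_Icc.inter_right (isClosed_le continuous_const hf)
  obtain ⟨u₂, h2, h2'⟩ := hS.exists_isLeast ⟨b, ⟨hab, le_rfl⟩, hβ⟩
  have e2 : f u₂ = β := by
    obtain ⟨x, hx, hx'⟩ := intermediate_value_Icc h2.1.1 hf.continuousOn
      (show β ∈ Icc (f a) (f u₂) from ⟨by linarith, h2.2⟩)
    have h3 : u₂ ≤ x := h2' ⟨⟨hx.1, hx.2.trans h2.1.2⟩, hx'.ge⟩
    have h4 : x = u₂ := le_antisymm hx.2 h3
    rw [← h4, hx']
  have hT : IsCompact (Icc a u₂ ∩ {x | f x ≤ α}) :=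
    isCompact_Icc.inter_right (isClosed_le hf continuous_const)
  obtain ⟨u₁, h1, h1'⟩ := hT.exists_isGreatest ⟨a, ⟨le_rfl, h2.1.1⟩, hα⟩
  have e1 : f u₁ = α := by
    obtain ⟨x, hx, hx'⟩ := intermediate_value_Icc h1.1.2 hf.continuousOn
      (show α ∈ Icc (f u₁) (f u₂) from ⟨h1.2, by linarith⟩)
    have h3 : x ≤ u₁ := h1' ⟨⟨h1.1.1.trans hx.1, hx.2⟩, hx'.le⟩
    have h4 : x = u₁ := le_antisymm h3 hx.1
    rw [← h4, hx']
  refine ⟨u₁, u₂, h1.1.1, h1.1.2, h2.1.2, e1, e2, fun u hu => ⟨?_, ?_⟩⟩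
  · by_contra hlt
    push Not at hlt
    have h3 : u ≤ u₁ := h1' ⟨⟨h1.1.1.trans hu.1, hu.2⟩, hlt.le⟩
    have h4 : u = u₁ := le_antisymm h3 hu.1
    rw [h4, e1] at hlt
    exact lt_irrefl _ hlt
  · by_contra hlt
    push Not at hlt
    have h3 : u₂ ≤ u := h2' ⟨⟨h1.1.1.trans hu.1, hu.2.trans h2.1.2⟩, hlt.le⟩
    have h4 : u = u₂ := le_antisymm hu.2 h3
    rw [h4, e2] at hlt
    exact lt_irrefl _ hlt

/-- `ψ₊ / rad` -/
noncomputable def cc (ψ : ℝ → ℝ) (u : ℝ) : ℝ := max (ψ u) 0 / rad 1 u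

theorem continuous_cc {ψ : ℝ → ℝ} (h : Continuous ψ) : Continuous (cc ψ) :=
  (h.max continuous_const).div (continuous_rad 1) fun u => (rad_pos one_pos u).ne'

theorem mem_low_iff {ψ : ℝ → ℝ} {u : ℝ} : u ∈ low ψ 1 ↔ cc ψ u ≤ 11 / 25 := by
  rw [cc, div_le_iff₀ (rad_pos one_pos u)]
  rfl

variable {d : ℕ} {q : ℝ} {ψ : ℝ → ℝ}

/-- the integrand where `c ≥ 1/10` -/
theorem gain (hq : Num d q) {u : ℝ} (hu : u ∈ low ψ 1) (h : 1 / 10 ≤ cc ψ u) :
    (q * ((Real.sqrt (99 / 100))⁻¹) ^ d - 1) * ((rad 1 u)⁻¹) ^ d ≤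
      q * ((hgt ψ 1 u)⁻¹) ^ d - ((rad 1 u)⁻¹) ^ d := by
  have h1 := rad_pos one_pos u
  have h2 := hgt_pos one_pos hu
  have h3 : 1 / 10 * rad 1 u ≤ max (ψ u) 0 := by
    rw [cc, le_div_iff₀ h1] at h
    exact h
  have h4 : hgt ψ 1 u ≤ Real.sqrt (99 / 100) * rad 1 u := by
    refine abs_le_of_sq_le_sq' ?_ (by positivity) |>.2
    rw [hgt_sq hu, mul_pow, Real.sq_sqrt (by norm_num)]
    nlinarith
  have h5 : (Real.sqrt (99 / 100))⁻¹ * (rad 1 u)⁻¹ ≤ (hgt ψ 1 u)⁻¹ := by
    rw [← mul_inv]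
    exact inv_anti₀ h2 h4
  have h6 : ((Real.sqrt (99 / 100))⁻¹ * (rad 1 u)⁻¹) ^ d ≤ ((hgt ψ 1 u)⁻¹) ^ d :=
    pow_le_pow_left₀ (by positivity) h5 d
  rw [mul_pow] at h6
  have h7 := mul_le_mul_of_nonneg_left h6 hq.pos.le
  linarith

theorem kappa_nonneg (hq : Num d q) : 0 ≤ q * ((Real.sqrt (99 / 100))⁻¹) ^ d - 1 := by
  have h1 : 0 < Real.sqrt (99 / 100) ^ d := by positivity
  have h2 := hq.n0
  rw [inv_pow, ← div_eq_mul_inv, sub_nonneg, le_div_iff₀ h1]
  linarith

theorem loss (hq : Num d q) {u : ℝ} (hu : u ∈ low ψ 1) :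
    -((1 - q) * ((rad 1 u)⁻¹) ^ d) ≤ q * ((hgt ψ 1 u)⁻¹) ^ d - ((rad 1 u)⁻¹) ^ d := by
  have h1 := rad_pos one_pos u
  have h2 := hgt_pos one_pos hu
  have h5 : (rad 1 u)⁻¹ ≤ (hgt ψ 1 u)⁻¹ := inv_anti₀ h2 (hgt_le_rad ψ 1 u)
  have h6 : ((rad 1 u)⁻¹) ^ d ≤ ((hgt ψ 1 u)⁻¹) ^ d := pow_le_pow_left₀ (by positivity) h5 d
  have h7 := mul_le_mul_of_nonneg_left h6 hq.pos.le
  linarith

theorem one_le_rad (u : ℝ) : 1 ≤ rad 1 u := by
  refine abs_le_of_sq_le_sq' ?_ (rad_nonneg 1 u) |>.2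
  rw [rad_sq]
  nlinarith [sq_nonneg u]

/-- the set where `c < 1/10` -/
theorem le_of_cc_lt (hψ : IsProf 1 ψ) (h0 : 21 / 100 < ψ 0) {u : ℝ} (hu : cc ψ u < 1 / 10) :
    u ≤ -(1 / 10) := by
  by_contra hlt
  push Not at hlt
  have h1 := rad_pos one_pos u
  have hs := rad_sq 1 u
  have h3 : max (ψ u) 0 < 1 / 10 * rad 1 u := by
    rw [cc, div_lt_iff₀ h1] at hu
    exact hu
  have h4 : ψ u ≤ max (ψ u) 0 := le_max_left _ _
  have h5 := hψ.ge u
  have h6 := hψ.lip 0 u
  rw [zero_sub, abs_neg] at h6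
  have h7 := (abs_le.1 h6).2
  have h8 := one_le_rad u
  rcases le_total 0 u with hu0 | hu0
  · rw [abs_of_nonneg hu0] at h7
    have h9 : 21 / 100 - u < 1 / 10 * rad 1 u := by linarith
    have h10 : u < 1 / 10 * rad 1 u := by linarith
    have h11 : 21 / 100 < 2 / 10 * rad 1 u := by linarith
    have h12 : u ^ 2 < 1 / 100 * rad 1 u ^ 2 := by nlinarith
    have h13 : rad 1 u ^ 2 < 100 / 99 := by nlinarith
    nlinarith
  · rw [abs_of_nonpos hu0] at h7
    have h9 : 21 / 100 + u < 1 / 10 * rad 1 u := by linarith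
    have h10 : rad 1 u ^ 2 ≤ 101 / 100 := by nlinarith
    nlinarith

end A2

open A2

theorem unitD_case2 {d : ℕ} (hd : 2 ≤ d) {q : ℝ} (hq : Num d q) {ψ : ℝ → ℝ} (hψ : IsProf 1 ψ)
    (h0 : 21 / 100 < ψ 0) :
    ∫ t in low ψ 1, ((rad 1 t)⁻¹) ^ d ≤ q * ∫ t in low ψ 1, ((hgt ψ 1 t)⁻¹) ^ d := by
  have hc := hψ.continuous
  have hcc := continuous_cc hc
  have hmeas := measurableSet_low hc 1
  rw [← sub_nonneg, sub_integral_eq hc one_pos hd]
  set κ : ℝ := q * ((Real.sqrt (99 / 100))⁻¹) ^ d - 1 with hκ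
  have hκ0 : 0 ≤ κ := kappa_nonneg hq
  have hq1 : 0 ≤ 1 - q := sub_nonneg.2 hq.le_one
  by_cases hN : ∃ u, cc ψ u < 1 / 10
  swap
  · push Not at hN
    refine setIntegral_nonneg hmeas fun u hu => ?_
    refine le_trans ?_ (gain hq hu (hN u))
    have := rad_pos one_pos u
    positivity
  · set N : Set ℝ := {u | cc ψ u < 1 / 10} with hNdef
    have hNne : N.Nonempty := hN
    have hNub : ∀ u ∈ N, u ≤ -(1 / 10) := fun u hu => le_of_cc_lt hψ h0 hu
    have hbdd : BddAbove N := ⟨_, hNub⟩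
    set w : ℝ := sSup N with hw
    have hw1 : w ≤ -(1 / 10) := csSup_le hNne hNub
    have hwN : ∀ u, w < u → 1 / 10 ≤ cc ψ u := by
      intro u hu
      by_contra hlt
      push Not at hlt
      exact absurd (le_csSup hbdd hlt) (not_le.2 hu)
    have hcw : cc ψ w ≤ 1 / 10 := by
      have h1 : w ∈ closure N := csSup_mem_closure hNne hbdd
      have h2 : closure N ⊆ {u | cc ψ u ≤ 1 / 10} :=
        closure_minimal (fun u (hu : cc ψ u < 1 / 10) => le_of_lt hu)
          (isClosed_le hcc continuous_const)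
      exact h2 h1
    have hc0 : 1 / 5 ≤ cc ψ 0 := by
      have h1 : rad 1 0 = 1 := by simp [rad]
      rw [cc, h1, div_one]
      exact le_trans (by linarith) (le_max_left _ _)
    obtain ⟨u₁, u₂, hwu, hu12, hu20, e1, e2, hmid⟩ :=
      crossing hcc (by linarith : w ≤ 0) hcw (by norm_num : (1 / 10 : ℝ) < 1 / 5) hc0
    -- the angle
    have hang : 1 / 10 ≤ Real.arctan u₂ - Real.arctan u₁ := by
      have hp : ∀ u, 0 < cc ψ u → cc ψ u = ψ u / rad 1 u := by
        intro u hu
        have h1 := rad_pos one_pos u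
        have h2 : 0 < max (ψ u) 0 := by
          by_contra hlt
          push Not at hlt
          have h3 : max (ψ u) 0 = 0 := le_antisymm hlt (le_max_right _ _)
          rw [cc, h3, zero_div] at hu
          exact lt_irrefl _ hu
        have h3 : 0 < ψ u := by
          rcases lt_max_iff.1 h2 with h | h
          · exact h
          · exact absurd h (lt_irrefl _)
        rw [cc, max_eq_left h3.le]
      have h1 := hψ.sph u₂ u₁
      rw [← hp u₂ (by rw [e2]; norm_num), ← hp u₁ (by rw [e1]; norm_num), e1, e2, div_one,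
        div_one] at h1
      have h2 : Real.arctan u₁ ≤ Real.arctan u₂ := Real.arctan_strictMono.monotone hu12
      rw [abs_of_nonneg (sub_nonneg.2 h2)] at h1
      refine le_trans ?_ h1
      rw [abs_of_nonneg (by norm_num)]
      norm_num
    obtain ⟨k, rfl⟩ := Nat.exists_eq_add_of_le hd
    have hint := integrable_rad (b := 1) one_pos hd
    -- the power of `rad` at `w`
    set R : ℝ := ((rad 1 w)⁻¹) ^ k with hR
    have hR0 : 0 < R := by
      have := rad_pos one_pos w
      positivity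
    have hpt : ∀ u, ((rad 1 u)⁻¹) ^ (2 + k) = (1 + u ^ 2)⁻¹ * ((rad 1 u)⁻¹) ^ k := by
      intro u
      rw [pow_add, inv_pow, rad_sq, one_pow]
    have hgain : R * (1 / 10) ≤ ∫ u in Icc u₁ u₂, ((rad 1 u)⁻¹) ^ (2 + k) := by
      have h1 : ∫ u in Icc u₁ u₂, R * (1 + u ^ 2)⁻¹ = R * (Real.arctan u₂ - Real.arctan u₁) := by
        rw [integral_const_mul, integral_Icc_eq_integral_Ioc, ← intervalIntegral.integral_of_le hu12,
          integral_inv_one_add_sq]
      calc R * (1 / 10) ≤ R * (Real.arctan u₂ - Real.arctan u₁) :=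
            mul_le_mul_of_nonneg_left hang hR0.le
        _ = ∫ u in Icc u₁ u₂, R * (1 + u ^ 2)⁻¹ := h1.symm
        _ ≤ _ := by
          refine setIntegral_mono_on (integrable_inv_one_add_sq.const_mul R).integrableOn
            hint.integrableOn measurableSet_Icc fun u hu => ?_
          rw [hpt, mul_comm]
          refine mul_le_mul_of_nonneg_left ?_ (by positivity)
          refine pow_le_pow_left₀ (inv_nonneg.2 (rad_nonneg _ _)) (inv_anti₀ (rad_pos one_pos u) ?_) k
          refine Real.sqrt_le_sqrt ?_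
          have h3 : w ≤ u := hwu.trans hu.1
          have h4 : u ≤ 0 := hu.2.trans hu20
          nlinarith
    have hloss : ∫ u in Iic w, ((rad 1 u)⁻¹) ^ (2 + k) ≤ R * (Real.pi / 2) := by
      calc ∫ u in Iic w, ((rad 1 u)⁻¹) ^ (2 + k) ≤ ∫ u in Iic w, R * (1 + u ^ 2)⁻¹ := by
            refine setIntegral_mono_on hint.integrableOn
              (integrable_inv_one_add_sq.const_mul R).integrableOn measurableSet_Iic fun u hu => ?_
            rw [hpt, mul_comm R]
            refine mul_le_mul_of_nonneg_left ?_ (by positivity)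
            refine pow_le_pow_left₀ (inv_nonneg.2 (rad_nonneg _ _))
              (inv_anti₀ (rad_pos one_pos w) ?_) k
            refine Real.sqrt_le_sqrt ?_
            have h3 : u ≤ w := hu
            nlinarith
        _ = R * (Real.arctan w + Real.pi / 2) := by
          rw [integral_const_mul, integral_Iic_inv_one_add_sq]
        _ ≤ R * (Real.pi / 2) := by
          refine mul_le_mul_of_nonneg_left ?_ hR0.le
          have : Real.arctan w ≤ 0 := by
            rw [← Real.arctan_zero]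
            exact Real.arctan_strictMono.monotone (by linarith)
          linarith
    -- the comparison function
    set r : ℝ → ℝ := fun u => ((rad 1 u)⁻¹) ^ (2 + k) with hr
    have hr0 : ∀ u, 0 ≤ r u := fun u => by
      have := rad_pos one_pos u
      simp only [hr]
      positivity
    have hkey : ∫ u in low ψ 1, ((Icc u₁ u₂).indicator (fun u => κ * r u) u -
        (Iic w).indicator (fun u => (1 - q) * r u) u) ≤
        ∫ t in low ψ 1, (q * ((hgt ψ 1 t)⁻¹) ^ (2 + k) - ((rad 1 t)⁻¹) ^ (2 + k)) := by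
      refine setIntegral_mono_on ?_ ?_ hmeas fun u hu => ?_
      · exact (((hint.const_mul κ).indicator measurableSet_Icc).sub
          ((hint.const_mul (1 - q)).indicator measurableSet_Iic)).integrableOn
      · exact ((integrableOn_hgt hc one_pos hd).const_mul q).sub hint.integrableOn
      · have hru := hr0 u
        by_cases h1 : u ∈ Icc u₁ u₂
        · rw [indicator_of_mem h1]
          have h2 := gain hq hu (hmid u h1).1
          have h3 : 0 ≤ (Iic w).indicator (fun u => (1 - q) * r u) u :=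
            indicator_nonneg (fun _ _ => mul_nonneg hq1 (hr0 _)) u
          linarith
        · rw [indicator_of_notMem h1]
          by_cases h2 : u ∈ Iic w
          · rw [indicator_of_mem h2]
            have h3 := loss hq hu
            simp only [hr]
            linarith
          · rw [indicator_of_notMem h2]
            have h3 := gain hq hu (hwN u (not_le.1 h2))
            have h4 : 0 ≤ κ * r u := mul_nonneg hκ0 hru
            simp only [hr] at h4
            linarith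
    refine le_trans ?_ hkey
    rw [integral_sub, integral_indicator measurableSet_Icc, integral_indicator measurableSet_Iic,
      Measure.restrict_restrict measurableSet_Icc, Measure.restrict_restrict measurableSet_Iic,
      integral_const_mul, integral_const_mul]
    · have hsub : Icc u₁ u₂ ∩ low ψ 1 = Icc u₁ u₂ := by
        refine inter_eq_left.2 fun u hu => ?_
        rw [mem_low_iff]
        exact (hmid u hu).2.trans (by norm_num)
      rw [hsub]
      have h1 : ∫ u in Iic w ∩ low ψ 1, r u ≤ ∫ u in Iic w, r u :=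
        setIntegral_mono_set hint.integrableOn (Eventually.of_forall fun u => hr0 u)
          (Eventually.of_forall fun u hu => hu.1)
      have h2 := hq.n2
      have h3 : κ * (R * (1 / 10)) ≤ κ * ∫ u in Icc u₁ u₂, r u :=
        mul_le_mul_of_nonneg_left hgain hκ0
      have h4 : (1 - q) * ∫ u in Iic w ∩ low ψ 1, r u ≤ (1 - q) * (R * (Real.pi / 2)) :=
        mul_le_mul_of_nonneg_left (h1.trans hloss) hq1
      have h5 : R * ((1 - q) * (Real.pi / 2)) ≤ R * (1 / 10 * κ) :=
        mul_le_mul_of_nonneg_left h2 hR0.le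
      linarith
    · exact ((hint.const_mul κ).indicator measurableSet_Icc).integrableOn
    · exact ((hint.const_mul (1 - q)).indicator measurableSet_Iic).integrableOn

end Pool.Agent.Sausage
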