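import Pool.Agent.Lib.MP_dcaa2d_sau.A0

/-!
# Scaling of the integral inequality on the line
-/

set_option autoImplicit false

open MeasureTheory Metric Set Filter Topology
open scoped Pointwise ENNReal NNReal

namespace Pool.Agent.Sausage

namespace A3

/-- the rescaled profile -/
noncomputable def sc (ψ : ℝ → ℝ) (b : ℝ) : ℝ → ℝ := fun u => ψ (b * u) / b

theorem rad_mul {b : ℝ} (hb : 0 < b) (u : ℝ) : rad b (b * u) = b * rad 1 u := by
  unfold rad
  have h1 : b ^ 2 + (b * u) ^ 2 = b ^ 2 * (1 ^ 2 + u ^ 2) := by ring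
  rw [h1, Real.sqrt_mul (by positivity), Real.sqrt_sq hb.le]

theorem max_div {b : ℝ} (hb : 0 < b) (x : ℝ) : max (x / b) 0 = max x 0 / b := by
  have h := max_div_div_right hb.le x 0
  rwa [zero_div] at h

theorem hgt_mul {b : ℝ} (hb : 0 < b) (ψ : ℝ → ℝ) (u : ℝ) :
    hgt ψ b (b * u) = b * hgt (sc ψ b) 1 u := by
  unfold hgt sc
  have h1 : b ^ 2 + (b * u) ^ 2 - (max (ψ (b * u)) 0) ^ 2 =
      b ^ 2 * (1 ^ 2 + u ^ 2 - (max (ψ (b * u) / b) 0) ^ 2) := by
    rw [max_div hb]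
    field_simp
  rw [h1, Real.sqrt_mul (by positivity), Real.sqrt_sq hb.le]

theorem mem_low {b : ℝ} (hb : 0 < b) (ψ : ℝ → ℝ) (u : ℝ) :
    b * u ∈ low ψ b ↔ u ∈ low (sc ψ b) 1 := by
  unfold low sc
  rw [mem_ofPred_eq, mem_ofPred_eq, rad_mul hb, max_div hb, div_le_iff₀ hb]
  have h1 : 11 / 25 * (b * rad 1 u) = 11 / 25 * rad 1 u * b := by ring
  rw [h1]

theorem isProf_sc {b : ℝ} (hb : 0 < b) {ψ : ℝ → ℝ} (h : IsProf b ψ) : IsProf 1 (sc ψ b) := by
  refine ⟨fun u v => ?_, fun u => ?_, fun u v => ?_⟩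
  · unfold sc
    rw [← sub_div, abs_div, abs_of_pos hb, div_le_iff₀ hb]
    refine (h.lip _ _).trans (le_of_eq ?_)
    rw [← mul_sub, abs_mul, abs_of_pos hb, mul_comm]
  · unfold sc
    rw [le_div_iff₀ hb, mul_comm]
    exact h.ge _
  · have h1 := h.sph (b * u) (b * v)
    have h2 : ∀ w, ψ (b * w) / rad b (b * w) = sc ψ b w / rad 1 w := by
      intro w
      unfold sc
      rw [rad_mul hb, div_div]
    have h3 : ∀ w, b * w / b = w / 1 := by
      intro w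
      rw [mul_div_cancel_left₀ _ hb.ne', div_one]
    rw [h2, h2, h3, h3] at h1
    exact h1

/-- substitution in the integrals over `low` -/
theorem integral_low {b : ℝ} (hb : 0 < b) {ψ : ℝ → ℝ} (h : IsProf b ψ) (d : ℕ)
    {f g : ℝ → ℝ} (hfg : ∀ u, f (b * u) = b * g u) :
    ∫ t in low ψ b, ((f t)⁻¹) ^ d =
      b * (b⁻¹) ^ d * ∫ u in low (sc ψ b) 1, ((g u)⁻¹) ^ d := by
  have hm1 : MeasurableSet (low ψ b) := measurableSet_low h.continuous b
  have hm2 : MeasurableSet (low (sc ψ b) 1) :=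
    measurableSet_low (isProf_sc hb h).continuous 1
  rw [← integral_indicator hm1, ← integral_indicator hm2]
  have h1 := Measure.integral_comp_mul_left
    (fun t => (low ψ b).indicator (fun t => ((f t)⁻¹) ^ d) t) b
  rw [abs_of_pos (inv_pos.2 hb), smul_eq_mul] at h1
  have h2 : ∀ u, (low ψ b).indicator (fun t => ((f t)⁻¹) ^ d) (b * u) =
      (b⁻¹) ^ d * (low (sc ψ b) 1).indicator (fun u => ((g u)⁻¹) ^ d) u := by
    intro u
    by_cases hu : u ∈ low (sc ψ b) 1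
    · rw [indicator_of_mem hu, indicator_of_mem ((mem_low hb ψ u).2 hu), hfg, mul_inv, mul_pow]
    · rw [indicator_of_notMem hu, indicator_of_notMem (fun h' => hu ((mem_low hb ψ u).1 h')),
        mul_zero]
  simp only [h2] at h1
  rw [integral_const_mul] at h1
  rw [mul_assoc, h1, ← mul_assoc, mul_inv_cancel₀ hb.ne', one_mul]

end A3

theorem oneD_of_unitD {d : ℕ} {q : ℝ} (h : UnitD d q) : OneD d q := by
  intro ψ b hb hψ
  rw [A3.integral_low hb hψ d (f := rad b) (g := rad 1) (fun u => A3.rad_mul hb u),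
    A3.integral_low hb hψ d (f := hgt ψ b) (g := hgt (A3.sc ψ b) 1)
      (fun u => A3.hgt_mul hb ψ u)]
  have h1 := h (A3.sc ψ b) (A3.isProf_sc hb hψ)
  have h2 : 0 ≤ b * (b⁻¹) ^ d := by positivity
  calc b * (b⁻¹) ^ d * ∫ u in low (A3.sc ψ b) 1, ((rad 1 u)⁻¹) ^ d
      ≤ b * (b⁻¹) ^ d * (q * ∫ u in low (A3.sc ψ b) 1, ((hgt (A3.sc ψ b) 1 u)⁻¹) ^ d) :=
        mul_le_mul_of_nonneg_left h1 h2
    _ = q * (b * (b⁻¹) ^ d * ∫ u in low (A3.sc ψ b) 1, ((hgt (A3.sc ψ b) 1 u)⁻¹) ^ d) := by ring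

end Pool.Agent.Sausage
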