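import Pool.Agent.Lib.MP_dcaa2d_sau.A0

/-!
# Row A4: the numerical conditions for `q = 1999/2000`
-/

set_option autoImplicit false

open MeasureTheory Metric Set Filter Topology
open scoped Pointwise ENNReal NNReal

namespace Pool.Agent.Sausage.A4

theorem rad_inv_pow_le {d : ℕ} (hd : 2 ≤ d) (u : ℝ) : ((rad 1 u)⁻¹) ^ d ≤ (1 + u ^ 2)⁻¹ := by
  have h1 : 1 ≤ rad 1 u := by
    refine abs_le_of_sq_le_sq' ?_ (rad_nonneg 1 u) |>.2
    rw [rad_sq]
    nlinarith [sq_nonneg u]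
  have h2 : (rad 1 u)⁻¹ ≤ 1 := inv_le_one_of_one_le₀ h1
  have h3 : 0 ≤ (rad 1 u)⁻¹ := inv_nonneg.2 (rad_nonneg 1 u)
  calc ((rad 1 u)⁻¹) ^ d ≤ ((rad 1 u)⁻¹) ^ 2 := pow_le_pow_of_le_one h3 h2 hd
    _ = (1 + u ^ 2)⁻¹ := by rw [inv_pow, rad_sq, one_pow]

theorem poly_integral : ∫ u in (0 : ℝ)..(23 / 100), (1 - u ^ 2 + u ^ 4) ≤ 2262 / 10000 := by
  have h1 : ∫ u in (0 : ℝ)..(23 / 100), (1 - u ^ 2 + u ^ 4)
      = 23 / 100 - (23 / 100) ^ 3 / 3 + (23 / 100) ^ 5 / 5 := by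
    rw [intervalIntegral.integral_add, intervalIntegral.integral_sub, integral_pow, integral_pow,
      intervalIntegral.integral_const]
    · norm_num
    · exact continuous_const.intervalIntegrable _ _
    · exact (continuous_pow 2).intervalIntegrable _ _
    · exact (continuous_const.sub (continuous_pow 2)).intervalIntegrable _ _
    · exact (continuous_pow 4).intervalIntegrable _ _
  rw [h1]
  norm_num

end Pool.Agent.Sausage.A4

namespace Pool.Agent.Sausage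

theorem num_small {d : ℕ} (hd : 2 ≤ d) : Num d (1999 / 2000) := by
  have hs0 : 0 ≤ Real.sqrt (99 / 100) := Real.sqrt_nonneg _
  have hs2 : Real.sqrt (99 / 100) ^ 2 = 99 / 100 := Real.sq_sqrt (by norm_num)
  have hs1 : Real.sqrt (99 / 100) ≤ 1 := Real.sqrt_le_one.2 (by norm_num)
  have hsp : 0 < Real.sqrt (99 / 100) := Real.sqrt_pos.2 (by norm_num)
  refine ⟨by norm_num, by norm_num, ?_, ?_, ?_⟩
  · calc Real.sqrt (99 / 100) ^ d ≤ Real.sqrt (99 / 100) ^ 2 := pow_le_pow_of_le_one hs0 hs1 hd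
      _ = 99 / 100 := hs2
      _ ≤ 1999 / 2000 := by norm_num
  · have h1 : ∫ u in (0 : ℝ)..(23 / 100), ((rad 1 u)⁻¹) ^ d ≤
        ∫ u in (0 : ℝ)..(23 / 100), (1 - u ^ 2 + u ^ 4) := by
      refine intervalIntegral.integral_mono_on (by norm_num) ?_ ?_ ?_
      · exact (integrable_rad one_pos hd).intervalIntegrable
      · exact (by fun_prop : Continuous fun u : ℝ => 1 - u ^ 2 + u ^ 4).intervalIntegrable _ _
      · intro u _
        refine (A4.rad_inv_pow_le hd u).trans ?_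
        rw [inv_le_iff_one_le_mul₀ (by positivity)]
        nlinarith [sq_nonneg (u ^ 3)]
    have h2 := A4.poly_integral
    have h3 : ∫ u in (Icc (0 : ℝ) (23 / 100))ᶜ, ((rad 1 u)⁻¹) ^ d ≤ Real.pi := by
      calc ∫ u in (Icc (0 : ℝ) (23 / 100))ᶜ, ((rad 1 u)⁻¹) ^ d
          ≤ ∫ u in (Icc (0 : ℝ) (23 / 100))ᶜ, (1 + u ^ 2)⁻¹ :=
            setIntegral_mono (integrable_rad one_pos hd).integrableOn
              integrable_inv_one_add_sq.integrableOn (fun u => A4.rad_inv_pow_le hd u)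
        _ ≤ ∫ u : ℝ, (1 + u ^ 2)⁻¹ :=
            setIntegral_le_integral integrable_inv_one_add_sq
              (Eventually.of_forall fun u => by positivity)
        _ = Real.pi := integral_univ_inv_one_add_sq
    have h4 := Real.pi_lt_d2
    have h5 : (1 - (1999 : ℝ) / 2000) * (∫ u in (Icc (0 : ℝ) (23 / 100))ᶜ, ((rad 1 u)⁻¹) ^ d)
        ≤ (1 - 1999 / 2000) * 3.15 :=
      mul_le_mul_of_nonneg_left (h3.trans h4.le) (by norm_num)
    exact (add_le_add (h1.trans h2) h5).trans (by norm_num)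
  · have h1 : (99 / 100 : ℝ)⁻¹ ≤ ((Real.sqrt (99 / 100))⁻¹) ^ d := by
      have h2 : 1 ≤ (Real.sqrt (99 / 100))⁻¹ := (one_le_inv₀ hsp).2 hs1
      calc (99 / 100 : ℝ)⁻¹ = ((Real.sqrt (99 / 100))⁻¹) ^ 2 := by rw [inv_pow, hs2]
        _ ≤ ((Real.sqrt (99 / 100))⁻¹) ^ d := pow_le_pow_right₀ h2 hd
    have h4 := Real.pi_lt_d2
    have h5 : (1999 / 2000 : ℝ) * (99 / 100 : ℝ)⁻¹ ≤ 1999 / 2000 * ((Real.sqrt (99 / 100))⁻¹) ^ d :=
      mul_le_mul_of_nonneg_left h1 (by norm_num)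
    norm_num at h5 ⊢
    linarith

end Pool.Agent.Sausage
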