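import Pool.Agent.Lib.MP_dcaa2d_sau.A0

/-!
# The numerical conditions hold for all large dimensions
-/

set_option autoImplicit false

open MeasureTheory Metric Set Filter Topology
open scoped Pointwise ENNReal NNReal

namespace Pool.Agent.Sausage

namespace A5

private lemma hasDeriv (w : ℝ) :
    HasDerivAt (fun w : ℝ => (w / (1 + w ^ 2) + Real.arctan w) / 2) (((1 + w ^ 2) ^ 2)⁻¹) w := by
  have h0 : (1 + w ^ 2) ≠ 0 := by positivity
  have h1 : HasDerivAt (fun w : ℝ => 1 + w ^ 2) (2 * w) w := by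
    simpa using (hasDerivAt_pow 2 w).const_add 1
  have h2 := (((hasDerivAt_id w).div h1 h0).add (Real.hasDerivAt_arctan w)).div_const 2
  refine h2.congr_deriv ?_
  simp only [id]
  field_simp
  ring

private lemma integrable_sq : Integrable fun w : ℝ => ((1 + w ^ 2) ^ 2)⁻¹ := by
  refine integrable_inv_one_add_sq.mono' ?_ (Eventually.of_forall fun w => ?_)
  · refine Continuous.aestronglyMeasurable ?_
    exact Continuous.inv₀ (by fun_prop) (fun w => by positivity)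
  · rw [Real.norm_of_nonneg (by positivity)]
    refine inv_anti₀ (by positivity) ?_
    nlinarith [sq_nonneg w, sq_nonneg (w ^ 2)]

private lemma tendsto_top : Tendsto (fun w : ℝ => w / (1 + w ^ 2)) atTop (𝓝 0) := by
  refine squeeze_zero' (Filter.eventually_atTop.2 ⟨0, fun w hw => by positivity⟩)
    (Filter.eventually_atTop.2 ⟨1, fun w hw => ?_⟩) tendsto_inv_atTop_zero
  have h0 : 0 < w := by linarith
  rw [div_le_iff₀ (by positivity)]
  have : w⁻¹ * (1 + w ^ 2) = w⁻¹ + w := by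
    field_simp
  rw [this]
  have := inv_pos.2 h0
  linarith

private lemma tendsto_bot : Tendsto (fun w : ℝ => w / (1 + w ^ 2)) atBot (𝓝 0) := by
  have h := (tendsto_top.comp tendsto_neg_atBot_atTop).neg
  rw [neg_zero] at h
  refine h.congr fun w => ?_
  simp [neg_div]

private lemma integral_sq : ∫ w : ℝ, ((1 + w ^ 2) ^ 2)⁻¹ = Real.pi / 2 := by
  have h1 : Tendsto (fun w : ℝ => (w / (1 + w ^ 2) + Real.arctan w) / 2) atBot
      (𝓝 ((0 + (-(Real.pi / 2))) / 2)) :=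
    (tendsto_bot.add (Real.tendsto_arctan_atBot.mono_right nhdsWithin_le_nhds)).div_const 2
  have h2 : Tendsto (fun w : ℝ => (w / (1 + w ^ 2) + Real.arctan w) / 2) atTop
      (𝓝 ((0 + (Real.pi / 2)) / 2)) :=
    (tendsto_top.add (Real.tendsto_arctan_atTop.mono_right nhdsWithin_le_nhds)).div_const 2
  rw [integral_of_hasDerivAt_of_tendsto hasDeriv integrable_sq h1 h2]
  ring

private lemma pow_bound {d : ℕ} (hd : 1000 ≤ d) : (289 / 256 : ℝ) * d ≤ (100 / 99 : ℝ) ^ d := by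
  induction d, hd using Nat.le_induction with
  | base =>
    have h2 : (3 / 2 : ℝ) ≤ (100 / 99 : ℝ) ^ 50 := by norm_num
    calc (289 / 256 : ℝ) * (1000 : ℕ) ≤ (3 / 2 : ℝ) ^ 20 := by norm_num
      _ ≤ ((100 / 99 : ℝ) ^ 50) ^ 20 := pow_le_pow_left₀ (by norm_num) h2 20
      _ = (100 / 99 : ℝ) ^ 1000 := by rw [← pow_mul]
  | succ n hn ih =>
    have h1 : (1000 : ℝ) ≤ n := by exact_mod_cast hn
    rw [pow_succ]
    push_cast
    nlinarith

private lemma s_bound {d : ℕ} (hd : 1000 ≤ d) :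
    17 / 16 * Real.sqrt d ≤ ((Real.sqrt (99 / 100))⁻¹) ^ d := by
  have h1 := pow_bound hd
  have h2 : (((Real.sqrt (99 / 100))⁻¹) ^ d) ^ 2 = (100 / 99 : ℝ) ^ d := by
    rw [← pow_mul, mul_comm d 2, pow_mul, inv_pow, Real.sq_sqrt (by norm_num)]
    norm_num
  refine abs_le_of_sq_le_sq' ?_ (by positivity) |>.2
  rw [h2, mul_pow, Real.sq_sqrt (by positivity)]
  calc (17 / 16 : ℝ) ^ 2 * d = 289 / 256 * d := by norm_num
    _ ≤ _ := h1

private lemma rad_bound {d : ℕ} (hd : 1000 ≤ d) (u : ℝ) :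
    ((rad 1 u)⁻¹) ^ d ≤ ((1 + (Real.sqrt d / 2 * u) ^ 2) ^ 2)⁻¹ := by
  have hd' : (1000 : ℝ) ≤ d := by exact_mod_cast hd
  rw [inv_pow]
  refine inv_anti₀ (by positivity) ?_
  have h1 : (Real.sqrt d / 2 * u) ^ 2 = (d / 4 : ℝ) * u ^ 2 := by
    rw [mul_pow, div_pow, Real.sq_sqrt (by positivity)]
    norm_num
  rw [h1]
  have h2 : 1 + (d / 4 : ℝ) * u ^ 2 ≤ (1 + u ^ 2) ^ (d / 4 : ℝ) :=
    one_add_mul_self_le_rpow_one_add (by nlinarith [sq_nonneg u]) (by linarith)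
  have h3 : (rad 1 u) ^ d = ((1 + u ^ 2) ^ (d / 4 : ℝ)) ^ 2 := by
    have h4 : 0 ≤ 1 + u ^ 2 := by positivity
    have h5 : ((1 + u ^ 2) ^ (d / 4 : ℝ)) ^ 2 = (1 + u ^ 2) ^ (d / 4 * 2 : ℝ) := by
      rw [Real.rpow_mul h4, ← Real.rpow_natCast]
      norm_num
    rw [h5, rad, one_pow, Real.sqrt_eq_rpow, ← Real.rpow_natCast, ← Real.rpow_mul h4]
    congr 1
    ring
  rw [h3]
  exact pow_le_pow_left₀ (by positivity) h2 2

private lemma integral_bound {d : ℕ} (hd : 1000 ≤ d) :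
    ∫ u : ℝ, ((rad 1 u)⁻¹) ^ d ≤ Real.pi / Real.sqrt d := by
  have hd' : (1000 : ℝ) ≤ d := by exact_mod_cast hd
  have hs : 0 < Real.sqrt d := Real.sqrt_pos.2 (by linarith)
  have hi : Integrable fun u : ℝ => ((1 + (Real.sqrt d / 2 * u) ^ 2) ^ 2)⁻¹ :=
    integrable_sq.comp_mul_left' (R := Real.sqrt d / 2) (by positivity)
  calc ∫ u : ℝ, ((rad 1 u)⁻¹) ^ d ≤ ∫ u : ℝ, ((1 + (Real.sqrt d / 2 * u) ^ 2) ^ 2)⁻¹ :=
        integral_mono (integrable_rad one_pos (by omega)) hi (rad_bound hd)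
    _ = Real.pi / Real.sqrt d := by
        rw [Measure.integral_comp_mul_left (fun w : ℝ => ((1 + w ^ 2) ^ 2)⁻¹) (Real.sqrt d / 2),
          integral_sq, abs_of_pos (by positivity), smul_eq_mul]
        field_simp

end A5

open A5 in
theorem num_large {d : ℕ} (hd : 1000 ≤ d) : Num d (16 / Real.sqrt d) := by
  have hd' : (1000 : ℝ) ≤ d := by exact_mod_cast hd
  have hs : 0 < Real.sqrt d := Real.sqrt_pos.2 (by linarith)
  have hs16 : 16 ≤ Real.sqrt d := Real.le_sqrt_of_sq_le (by norm_num; linarith)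
  have hq : 0 < 16 / Real.sqrt d := by positivity
  have hq1 : 16 / Real.sqrt d ≤ 1 := (div_le_one hs).2 hs16
  have hb := s_bound hd
  have hr : 0 < Real.sqrt (99 / 100) := Real.sqrt_pos.2 (by norm_num)
  refine ⟨hq, hq1, ?_, ?_, ?_⟩
  · have h1 : Real.sqrt (99 / 100) ^ d = (((Real.sqrt (99 / 100))⁻¹) ^ d)⁻¹ := by
      rw [inv_pow, inv_inv]
    rw [h1]
    calc (((Real.sqrt (99 / 100))⁻¹) ^ d)⁻¹ ≤ (17 / 16 * Real.sqrt d)⁻¹ :=
          inv_anti₀ (by positivity) hb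
      _ = 16 / 17 / Real.sqrt d := by
          rw [mul_inv, div_eq_mul_inv (16 / 17 : ℝ)]
          norm_num
      _ ≤ 16 / Real.sqrt d := div_le_div_of_nonneg_right (by norm_num) hs.le
  · have hint := integrable_rad (b := 1) one_pos (d := d) (by omega)
    have hnn : ∀ u : ℝ, 0 ≤ ((rad 1 u)⁻¹) ^ d := fun u => by
      have := rad_pos one_pos u
      positivity
    have h1 : (∫ u in (0 : ℝ)..(23 / 100), ((rad 1 u)⁻¹) ^ d) ≤
        ∫ u in Icc (0 : ℝ) (23 / 100), ((rad 1 u)⁻¹) ^ d := by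
      rw [intervalIntegral.integral_of_le (by norm_num), integral_Icc_eq_integral_Ioc]
    have h2 : (1 - 16 / Real.sqrt d) * (∫ u in (Icc (0 : ℝ) (23 / 100))ᶜ, ((rad 1 u)⁻¹) ^ d) ≤
        ∫ u in (Icc (0 : ℝ) (23 / 100))ᶜ, ((rad 1 u)⁻¹) ^ d := by
      have h3 : 0 ≤ ∫ u in (Icc (0 : ℝ) (23 / 100))ᶜ, ((rad 1 u)⁻¹) ^ d :=
        integral_nonneg hnn
      nlinarith
    have h4 := integral_add_compl (measurableSet_Icc (a := (0 : ℝ)) (b := 23 / 100)) hint
    have h5 := integral_bound hd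
    have h6 : Real.pi / Real.sqrt d ≤ 23 / 100 * (16 / Real.sqrt d) := by
      rw [← mul_div_assoc]
      refine div_le_div_of_nonneg_right ?_ hs.le
      have := Real.pi_lt_d2
      norm_num at this ⊢
      linarith
    linarith
  · have h1 : 17 ≤ 16 / Real.sqrt d * ((Real.sqrt (99 / 100))⁻¹) ^ d := by
      calc (17 : ℝ) = 16 / Real.sqrt d * (17 / 16 * Real.sqrt d) := by field_simp
        _ ≤ _ := mul_le_mul_of_nonneg_left hb hq.le
    have h2 : (1 - 16 / Real.sqrt d) * (Real.pi / 2) ≤ 1 * (Real.pi / 2) :=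
      mul_le_mul_of_nonneg_right (by linarith) (by positivity)
    have := Real.pi_lt_d2
    norm_num at this
    linarith

end Pool.Agent.Sausage
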