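import Mathlib

/-!
# Parametric density of finite packings of unit balls: definitions
-/

set_option autoImplicit false

open MeasureTheory Metric Set Filter Topology
open scoped Pointwise ENNReal NNReal

namespace Pool.Agent.Sausage

/-- The Euclidean space of dimension `d`. -/
abbrev E (d : ℕ) := EuclideanSpace ℝ (Fin d)

/-- The unit balls with centres in `X` form a packing. -/
def IsPacking {d : ℕ} (X : Set (E d)) : Prop := X.Pairwise fun x y => 2 ≤ dist x y

/-- The volume of `conv X + ρ B`. -/
noncomputable def parVol {d : ℕ} (X : Set (E d)) (ρ : ℝ) : ℝ :=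
  (volume (convexHull ℝ X + closedBall (0 : E d) ρ)).toReal

/-- `Δ_n(ρ)`: the minimum of `V(conv X + ρ B) / n` over all packings `X` of `n` unit balls. -/
noncomputable def deltaN (d : ℕ) (ρ : ℝ) (n : ℕ) : ℝ :=
  sInf {v | ∃ X : Finset (E d), IsPacking (X : Set (E d)) ∧ X.card = n ∧
    v = parVol (X : Set (E d)) ρ / n}

/-- The volume of the unit ball. -/
noncomputable def kappa (d : ℕ) : ℝ := (volume (closedBall (0 : E d) 1)).toReal

/-- The upper density of the packing of the unit balls with centres in `P`. -/
noncomputable def upperDensity {d : ℕ} (P : Set (E d)) : ℝ :=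
  limsup (fun R : ℝ => (volume (closedBall (0 : E d) R ∩ ⋃ x ∈ P, closedBall x 1)).toReal /
    (volume (closedBall (0 : E d) R)).toReal) atTop

/-- `δ(B^d)`: the maximal density of a packing of unit balls. -/
noncomputable def maxDensity (d : ℕ) : ℝ :=
  sSup {v | ∃ P : Set (E d), IsPacking P ∧ v = upperDensity P}

/-- The critical radius `ϱ_c(B^d)`: the infimum of the `ρ > 0` for which the limit of `Δ_n(ρ)` is
`Δ(B^d) = κ_d / δ(B^d)`. -/
noncomputable def criticalRadius (d : ℕ) : ℝ :=
  sInf {ρ | 0 < ρ ∧ Tendsto (deltaN d ρ) atTop (𝓝 (kappa d / maxDensity d))}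

end Pool.Agent.Sausage
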