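import Pool.Agent.Lib.MP_dcaa2d_sau.Defs

/-!
# Packings in cubes
-/

set_option autoImplicit false
set_option linter.unusedVariables false

open MeasureTheory Metric Set Filter Topology
open scoped Pointwise ENNReal NNReal

namespace Pool.Agent.Sausage

namespace D1

/-- the volume of a box -/
theorem volume_box (d : ℕ) (a b : ℝ) :
    volume {x : E d | ∀ i, a ≤ x i ∧ x i ≤ b} = ENNReal.ofReal (b - a) ^ d := by
  have h1 : {x : E d | ∀ i, a ≤ x i ∧ x i ≤ b} =
      (WithLp.ofLp : E d → (Fin d → ℝ)) ⁻¹' (Icc (fun _ => a) (fun _ => b)) := by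
    ext x
    simp only [Set.mem_ofPred_eq, mem_preimage, mem_Icc, Pi.le_def, forall_and]
  rw [h1, (PiLp.volume_preserving_ofLp (Fin d)).measure_preimage measurableSet_Icc.nullMeasurableSet,
    Real.volume_Icc_pi]
  simp

/-- the volume of the open unit ball -/
noncomputable def kap (d : ℕ) : ℝ := (volume (ball (0 : E d) 1)).toReal

theorem kap_pos (d : ℕ) : 0 < kap d :=
  ENNReal.toReal_pos (measure_ball_pos volume (0 : E d) one_pos).ne' measure_ball_lt_top.ne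

theorem coord_le {d : ℕ} (x y : E d) (i : Fin d) : |x i - y i| ≤ dist x y := by
  have h1 := PiLp.norm_apply_le (x - y) i
  rw [dist_eq_norm]
  simpa [Real.norm_eq_abs] using h1

/-- disjoint balls in a box -/
theorem card_mul_kap {d : ℕ} {L : ℝ} {X : Finset (E d)} (hX : IsPacking (X : Set (E d)))
    (h : (X : Set (E d)) ⊆ cube d L) : (X.card : ℝ) * kap d ≤ (max (L + 2) 0) ^ d := by
  have h1 : volume (⋃ x ∈ X, ball x 1) = X.card * volume (ball (0 : E d) 1) := by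
    rw [measure_biUnion_finset]
    · rw [Finset.sum_congr rfl (fun x _ => Measure.addHaar_ball_center volume x 1),
        Finset.sum_const, nsmul_eq_mul]
    · intro x hx y hy hxy
      refine ball_disjoint_ball ?_
      have := hX hx hy hxy
      linarith
    · exact fun x _ => measurableSet_ball
  have h2 : (⋃ x ∈ X, ball x 1) ⊆ {x : E d | ∀ i, -1 ≤ x i ∧ x i ≤ L + 1} := by
    intro y hy i
    obtain ⟨x, hx, hyx⟩ := Set.mem_iUnion₂.1 hy
    have h3 := coord_le y x i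
    have h4 : dist y x < 1 := hyx
    have h5 := abs_le.1 (h3.trans h4.le)
    have h6 := h hx i
    constructor <;> linarith [h5.1, h5.2, h6.1, h6.2]
  have h3 := measure_mono (μ := volume) h2
  rw [h1, volume_box] at h3
  have h4 : L + 1 - -1 = L + 2 := by ring
  rw [h4] at h3
  have h5 := ENNReal.toReal_mono (by finiteness) h3
  rw [ENNReal.toReal_mul, ENNReal.toReal_pow, ENNReal.toReal_natCast, ENNReal.toReal_ofReal'] at h5
  exact h5

theorem bddAbove_set (d : ℕ) (L : ℝ) : BddAbove {n | ∃ X : Finset (E d),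
    IsPacking (X : Set (E d)) ∧ (X : Set (E d)) ⊆ cube d L ∧ X.card = n} := by
  refine ⟨⌈(max (L + 2) 0) ^ d / kap d⌉₊, ?_⟩
  rintro n ⟨X, hX, h, rfl⟩
  have h1 := card_mul_kap hX h
  have h2 : (X.card : ℝ) ≤ (max (L + 2) 0) ^ d / kap d := (le_div_iff₀ (kap_pos d)).2 h1
  exact_mod_cast h2.trans (Nat.le_ceil _)

theorem nonempty_set (d : ℕ) (L : ℝ) : {n | ∃ X : Finset (E d),
    IsPacking (X : Set (E d)) ∧ (X : Set (E d)) ⊆ cube d L ∧ X.card = n}.Nonempty :=
  ⟨0, ∅, by simp [IsPacking], by simp, rfl⟩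

end D1

theorem exists_maxCube (d : ℕ) (L : ℝ) : ∃ X : Finset (E d), IsPacking (X : Set (E d)) ∧
    (X : Set (E d)) ⊆ cube d L ∧ X.card = maxCube d L :=
  Nat.sSup_mem (D1.nonempty_set d L) (D1.bddAbove_set d L)

theorem card_le_maxCube {d : ℕ} {L : ℝ} {X : Finset (E d)} (hX : IsPacking (X : Set (E d)))
    (h : (X : Set (E d)) ⊆ cube d L) : X.card ≤ maxCube d L :=
  le_csSup (D1.bddAbove_set d L) ⟨X, hX, h, rfl⟩

theorem maxCube_mono (d : ℕ) : Monotone (maxCube d) := by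
  intro L L' hL
  obtain ⟨X, h1, h2, h3⟩ := exists_maxCube d L
  rw [← h3]
  exact card_le_maxCube h1 fun x hx i => ⟨(h2 hx i).1, (h2 hx i).2.trans hL⟩

namespace D1

theorem maxCube_mul_kap {d : ℕ} {L : ℝ} (hL : 0 < L) : (maxCube d L : ℝ) * kap d ≤ (L + 2) ^ d := by
  obtain ⟨X, h1, h2, h3⟩ := exists_maxCube d L
  have h4 := card_mul_kap h1 h2
  rw [h3, max_eq_left (by linarith)] at h4
  exact h4

theorem bddAbove_dens (d : ℕ) : BddAbove {v | ∃ L : ℝ, 0 < L ∧ v = maxCube d L / (L + 2) ^ d} := by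
  refine ⟨1 / kap d, ?_⟩
  rintro v ⟨L, hL, rfl⟩
  rw [div_le_div_iff₀ (by positivity) (kap_pos d), one_mul]
  exact maxCube_mul_kap hL

/-- translates of an optimal packing -/
noncomputable def tr {d k : ℕ} (L : ℝ) (p : (Fin d → Fin k) × E d) : E d :=
  WithLp.toLp 2 fun i => p.2 i + (L + 2) * ((p.1 i : ℕ) : ℝ)

theorem tr_apply {d k : ℕ} (L : ℝ) (p : (Fin d → Fin k) × E d) (i : Fin d) :
    tr L p i = p.2 i + (L + 2) * ((p.1 i : ℕ) : ℝ) := rfl

theorem dist_tr {d k : ℕ} {L : ℝ} (hL : 0 ≤ L) {X : Finset (E d)} (hX : IsPacking (X : Set (E d)))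
    (h : (X : Set (E d)) ⊆ cube d L) (p q : (Fin d → Fin k) × E d) (hp : p.2 ∈ X) (hq : q.2 ∈ X)
    (hpq : p ≠ q) : 2 ≤ dist (tr L p) (tr L q) := by
  by_cases hz : p.1 = q.1
  · have h1 : p.2 ≠ q.2 := fun h2 => hpq (Prod.ext hz h2)
    have h2 := hX hp hq h1
    have h3 : tr L p - tr L q = p.2 - q.2 := by
      ext i
      rw [PiLp.sub_apply, PiLp.sub_apply, tr_apply, tr_apply, hz]
      ring
    rw [dist_eq_norm, h3, ← dist_eq_norm]
    exact h2
  · obtain ⟨i, hi⟩ := Function.ne_iff.1 hz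
    refine le_trans ?_ (coord_le (tr L p) (tr L q) i)
    rw [tr_apply, tr_apply]
    have h1 := h hp i
    have h2 := h hq i
    rcases lt_or_gt_of_ne (fun h3 : ((p.1 i : ℕ)) = (q.1 i : ℕ) => hi (Fin.ext h3)) with h3 | h3
    · have h4 : ((p.1 i : ℕ) : ℝ) + 1 ≤ ((q.1 i : ℕ) : ℝ) := by exact_mod_cast h3
      have h5 : (L + 2) * (((p.1 i : ℕ) : ℝ) + 1) ≤ (L + 2) * ((q.1 i : ℕ) : ℝ) :=
        mul_le_mul_of_nonneg_left h4 (by linarith)
      refine le_trans ?_ (neg_le_abs _)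
      nlinarith [h1.1, h1.2, h2.1, h2.2]
    · have h4 : ((q.1 i : ℕ) : ℝ) + 1 ≤ ((p.1 i : ℕ) : ℝ) := by exact_mod_cast h3
      have h5 : (L + 2) * (((q.1 i : ℕ) : ℝ) + 1) ≤ (L + 2) * ((p.1 i : ℕ) : ℝ) :=
        mul_le_mul_of_nonneg_left h4 (by linarith)
      refine le_trans ?_ (le_abs_self _)
      nlinarith [h1.1, h1.2, h2.1, h2.2]

theorem super (d k : ℕ) {L : ℝ} (hL : 0 ≤ L) :
    k ^ d * maxCube d L ≤ maxCube d (k * (L + 2)) := by
  classical
  obtain ⟨X, h1, h2, h3⟩ := exists_maxCube d L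
  let Y : Finset (E d) := ((Finset.univ : Finset (Fin d → Fin k)) ×ˢ X).image (tr L)
  have hinj : Set.InjOn (tr (d := d) (k := k) L)
      (((Finset.univ : Finset (Fin d → Fin k)) ×ˢ X : Finset ((Fin d → Fin k) × E d)) :
        Set ((Fin d → Fin k) × E d)) := by
    intro p hp q hq hpq
    by_contra hne
    have h4 := dist_tr hL h1 h2 p q (Finset.mem_product.1 hp).2 (Finset.mem_product.1 hq).2 hne
    rw [hpq, dist_self] at h4
    linarith
  have hcard : Y.card = k ^ d * maxCube d L := by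
    rw [Finset.card_image_of_injOn hinj, Finset.card_product, h3, Finset.card_univ,
      Fintype.card_pi_const, Fintype.card_fin]
  rw [← hcard]
  refine card_le_maxCube ?_ ?_
  · intro x hx y hy hxy
    obtain ⟨p, hp, rfl⟩ := Finset.mem_image.1 hx
    obtain ⟨q, hq, rfl⟩ := Finset.mem_image.1 hy
    exact dist_tr hL h1 h2 p q (Finset.mem_product.1 hp).2 (Finset.mem_product.1 hq).2
      fun h => hxy (by rw [h])
  · intro x hx i
    obtain ⟨p, hp, rfl⟩ := Finset.mem_image.1 hx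
    have h4 := h2 (Finset.mem_product.1 hp).2 i
    have h5 : ((p.1 i : ℕ) : ℝ) + 1 ≤ k := by exact_mod_cast (p.1 i).2
    have h6 : (L + 2) * (((p.1 i : ℕ) : ℝ) + 1) ≤ (L + 2) * k :=
      mul_le_mul_of_nonneg_left h5 (by linarith)
    have h7 : 0 ≤ (L + 2) * ((p.1 i : ℕ) : ℝ) := by positivity
    rw [tr_apply]
    constructor
    · linarith [h4.1]
    · nlinarith [h4.2]

end D1

theorem maxCube_le_cubeDens {d : ℕ} {L : ℝ} (hL : 0 < L) :
    (maxCube d L : ℝ) / (L + 2) ^ d ≤ cubeDens d :=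
  le_csSup (D1.bddAbove_dens d) ⟨L, hL, rfl⟩

theorem tendsto_maxCube {d : ℕ} (hd : 1 ≤ d) :
    Tendsto (fun L : ℝ => (maxCube d L : ℝ) / L ^ d) atTop (𝓝 (cubeDens d)) := by
  refine tendsto_order.2 ⟨fun a ha => ?_, fun b hb => ?_⟩
  · obtain ⟨v, ⟨L₀, hL₀, rfl⟩, hav⟩ := exists_lt_of_lt_csSup
      (⟨_, 1, one_pos, rfl⟩ : {v | ∃ L : ℝ, 0 < L ∧ v = maxCube d L / (L + 2) ^ d}.Nonempty) ha
    have hD : 0 < L₀ + 2 := by linarith
    have h1 : Tendsto (fun L : ℝ => (1 / (L₀ + 2) - L⁻¹) ^ d * (maxCube d L₀ : ℝ)) atTop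
        (𝓝 ((1 / (L₀ + 2) - 0) ^ d * (maxCube d L₀ : ℝ))) :=
      ((tendsto_const_nhds.sub tendsto_inv_atTop_zero).pow d).mul tendsto_const_nhds
    have h2 : (1 / (L₀ + 2) - 0) ^ d * (maxCube d L₀ : ℝ) = maxCube d L₀ / (L₀ + 2) ^ d := by
      rw [sub_zero, div_pow, one_pow]; ring
    rw [h2] at h1
    filter_upwards [(tendsto_order.1 h1).1 a hav, eventually_ge_atTop (L₀ + 2)] with L hL1 hL2
    have hL0 : 0 < L := by linarith
    refine lt_of_lt_of_le hL1 ?_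
    have h3 : 0 ≤ 1 / (L₀ + 2) - L⁻¹ := by
      rw [sub_nonneg, ← one_div]
      exact one_div_le_one_div_of_le hD hL2
    have h4 : L / (L₀ + 2) - 1 ≤ (⌊L / (L₀ + 2)⌋₊ : ℝ) := by
      have := Nat.lt_floor_add_one (L / (L₀ + 2))
      linarith
    have h5 : (⌊L / (L₀ + 2)⌋₊ : ℝ) * (L₀ + 2) ≤ L := by
      have := Nat.floor_le (a := L / (L₀ + 2)) (by positivity)
      exact (le_div_iff₀ hD).1 this
    have h6 : (⌊L / (L₀ + 2)⌋₊ ^ d * maxCube d L₀ : ℕ) ≤ maxCube d L :=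
      (D1.super d _ hL₀.le).trans (maxCube_mono d h5)
    have h7 : ((⌊L / (L₀ + 2)⌋₊ : ℝ)) ^ d * maxCube d L₀ ≤ maxCube d L := by exact_mod_cast h6
    have h8 : (1 / (L₀ + 2) - L⁻¹) * L ≤ (⌊L / (L₀ + 2)⌋₊ : ℝ) := by
      refine le_trans (le_of_eq ?_) h4
      field_simp
    rw [le_div_iff₀ (by positivity)]
    calc (1 / (L₀ + 2) - L⁻¹) ^ d * (maxCube d L₀ : ℝ) * L ^ d
        = ((1 / (L₀ + 2) - L⁻¹) * L) ^ d * (maxCube d L₀ : ℝ) := by rw [mul_pow]; ring
      _ ≤ ((⌊L / (L₀ + 2)⌋₊ : ℝ)) ^ d * maxCube d L₀ := by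
          refine mul_le_mul_of_nonneg_right ?_ (Nat.cast_nonneg _)
          exact pow_le_pow_left₀ (mul_nonneg h3 hL0.le) h8 d
      _ ≤ maxCube d L := h7
  · have h1 : Tendsto (fun L : ℝ => cubeDens d * (1 + 2 * L⁻¹) ^ d) atTop
        (𝓝 (cubeDens d * (1 + 2 * 0) ^ d)) :=
      tendsto_const_nhds.mul ((tendsto_const_nhds.add (tendsto_inv_atTop_zero.const_mul 2)).pow d)
    have h2 : cubeDens d * (1 + 2 * 0) ^ d = cubeDens d := by simp
    rw [h2] at h1
    filter_upwards [(tendsto_order.1 h1).2 b hb, eventually_gt_atTop 0] with L hL1 hL2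
    refine lt_of_le_of_lt ?_ hL1
    have h3 := maxCube_le_cubeDens (d := d) hL2
    rw [div_le_iff₀ (by positivity)] at h3
    rw [div_le_iff₀ (by positivity)]
    refine h3.trans (le_of_eq ?_)
    rw [mul_assoc, ← mul_pow]
    congr 2
    field_simp

theorem cubeDens_pos {d : ℕ} (hd : 1 ≤ d) : 0 < cubeDens d := by
  refine lt_of_lt_of_le ?_ (maxCube_le_cubeDens (d := d) one_pos)
  have h1 : 1 ≤ maxCube d 1 := by
    have h2 := card_le_maxCube (d := d) (L := 1) (X := {0}) (by simp [IsPacking])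
      (by
        intro x hx i
        have h3 : x = 0 := by simpa using hx
        rw [h3]
        simp)
    simpa using h2
  have h3 : (0 : ℝ) < maxCube d 1 := by exact_mod_cast h1
  positivity

end Pool.Agent.Sausage
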