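import Pool.Agent.Lib.MP_dcaa2d_sau.D1

/-!
# The density of packings of the whole space and the density in cubes
-/

set_option autoImplicit false

open MeasureTheory Metric Set Filter Topology
open scoped Pointwise ENNReal NNReal

namespace Pool.Agent.Sausage

namespace D2

theorem vol_closedBall {d : ℕ} (x : E d) {r : ℝ} (hr : 0 ≤ r) :
    volume (closedBall x r) = ENNReal.ofReal (r ^ d * kappa d) := by
  rw [Measure.addHaar_closedBall' _ _ hr, ENNReal.ofReal_mul (by positivity), kappa,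
    ENNReal.ofReal_toReal measure_closedBall_lt_top.ne, finrank_euclideanSpace_fin]

theorem kappa_pos (d : ℕ) : 0 < kappa d :=
  ENNReal.toReal_pos (measure_closedBall_pos volume _ one_pos).ne' measure_closedBall_lt_top.ne

theorem vol_cell {d : ℕ} (a b : ℝ) (c : Fin d → ℝ) :
    volume {x : E d | ∀ i, c i + a ≤ x i ∧ x i < c i + b} = ENNReal.ofReal (b - a) ^ d := by
  have h := PiLp.volume_preserving_ofLp (Fin d)
  have h1 : {x : E d | ∀ i, c i + a ≤ x i ∧ x i < c i + b} =
      (WithLp.ofLp) ⁻¹' (Set.pi univ fun i => Ico (c i + a) (c i + b)) := by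
    ext x
    simp [Set.mem_pi]
  rw [h1, h.measure_preimage (MeasurableSet.univ_pi fun i => measurableSet_Ico).nullMeasurableSet,
    Real.volume_pi_Ico]
  simp

theorem cube_eq (d : ℕ) (L : ℝ) : cube d L = WithLp.ofLp ⁻¹' (Icc (fun _ => 0) fun _ => L) := by
  ext x
  simp only [cube, Set.mem_ofPred_eq, Set.mem_preimage, Set.mem_Icc, Pi.le_def]
  exact ⟨fun h => ⟨fun i => (h i).1, fun i => (h i).2⟩, fun h i => ⟨h.1 i, h.2 i⟩⟩

theorem measurableSet_cube (d : ℕ) (L : ℝ) : MeasurableSet (cube d L) := by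
  rw [cube_eq]
  exact (PiLp.volume_preserving_ofLp (Fin d)).measurable measurableSet_Icc

theorem vol_cube (d : ℕ) (L : ℝ) : volume (cube d L) = ENNReal.ofReal L ^ d := by
  rw [cube_eq, (PiLp.volume_preserving_ofLp (Fin d)).measure_preimage
    measurableSet_Icc.nullMeasurableSet, Real.volume_Icc_pi]
  simp

theorem norm_le_of_abs_le {d : ℕ} {L : ℝ} (hL : 0 ≤ L) {x : E d} (h : ∀ i, |x i| ≤ L) :
    ‖x‖ ≤ L * Real.sqrt d := by
  rw [EuclideanSpace.norm_eq]
  refine Real.sqrt_le_iff.2 ⟨by positivity, ?_⟩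
  calc ∑ i, ‖x i‖ ^ 2 ≤ ∑ _i : Fin d, L ^ 2 :=
        Finset.sum_le_sum fun i _ => pow_le_pow_left₀ (norm_nonneg _) (h i) 2
    _ = (L * Real.sqrt d) ^ 2 := by
        rw [mul_pow, Real.sq_sqrt (Nat.cast_nonneg d)]
        simp [mul_comm]

theorem norm_le_of_mem_cube {d : ℕ} {L : ℝ} (hL : 0 ≤ L) {x : E d} (h : x ∈ cube d L) :
    ‖x‖ ≤ L * Real.sqrt d :=
  norm_le_of_abs_le hL fun i => abs_le.2 ⟨by linarith [(h i).1], (h i).2⟩

theorem count_cube {d : ℕ} {L : ℝ} (F : Finset (E d)) (hF : IsPacking (F : Set (E d)))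
    (t : E d) [DecidablePred fun p : E d => p - t ∈ cube d L] :
    (F.filter fun p => p - t ∈ cube d L).card ≤ maxCube d L := by
  classical
  rw [← Finset.card_image_of_injective _ (sub_left_injective (b := t))]
  refine card_le_maxCube ?_ ?_
  · intro x hx y hy hxy
    simp only [Finset.coe_image, Finset.coe_filter, Set.mem_image, Set.mem_ofPred_eq] at hx hy
    obtain ⟨p, ⟨hp, -⟩, rfl⟩ := hx
    obtain ⟨q, ⟨hq, -⟩, rfl⟩ := hy
    rw [dist_sub_right]
    exact hF hp hq fun h => hxy (by rw [h])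
  · intro x hx
    simp only [Finset.coe_image, Finset.coe_filter, Set.mem_image, Set.mem_ofPred_eq] at hx
    obtain ⟨p, ⟨-, hp⟩, rfl⟩ := hx
    exact hp

theorem count_le {d : ℕ} {L R : ℝ} (hL : 0 ≤ L) (hR : 0 ≤ R) (F : Finset (E d))
    (hF : IsPacking (F : Set (E d))) (hFR : ∀ p ∈ F, ‖p‖ ≤ R) :
    (F.card : ℝ) * L ^ d ≤ maxCube d L * ((R + L * Real.sqrt d) ^ d * kappa d) := by
  classical
  have hk := kappa_pos d
  have h1 : ∀ p : E d, volume ((fun t => p - t) ⁻¹' cube d L) = ENNReal.ofReal L ^ d := by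
    intro p
    rw [(volume.measurePreserving_sub_left p).measure_preimage
      (measurableSet_cube d L).nullMeasurableSet, vol_cube]
  have h2 : ∑ p ∈ F, volume ((fun t => p - t) ⁻¹' cube d L) =
      ∫⁻ t, ∑ p ∈ F, ((fun t => p - t) ⁻¹' cube d L).indicator 1 t := by
    rw [lintegral_finsetSum]
    · refine Finset.sum_congr rfl fun p _ => ?_
      rw [lintegral_indicator_one]
      exact (volume.measurePreserving_sub_left p).measurable (measurableSet_cube d L)
    · intro p _
      exact measurable_one.indicator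
        ((volume.measurePreserving_sub_left p).measurable (measurableSet_cube d L))
  have h3 : ∀ t : E d, ∑ p ∈ F, ((fun t => p - t) ⁻¹' cube d L).indicator (1 : E d → ℝ≥0∞) t ≤
      (closedBall (0 : E d) (R + L * Real.sqrt d)).indicator (fun _ => (maxCube d L : ℝ≥0∞)) t := by
    intro t
    have h4 : ∑ p ∈ F, ((fun t => p - t) ⁻¹' cube d L).indicator (1 : E d → ℝ≥0∞) t =
        ((F.filter fun p => p - t ∈ cube d L).card : ℝ≥0∞) := by
      rw [Finset.card_filter, Nat.cast_sum]
      refine Finset.sum_congr rfl fun p _ => ?_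
      simp only [Set.indicator, Set.mem_preimage, Pi.one_apply]
      split_ifs <;> simp
    rw [h4]
    by_cases ht : t ∈ closedBall (0 : E d) (R + L * Real.sqrt d)
    · rw [Set.indicator_of_mem ht]
      exact_mod_cast count_cube F hF t
    · rw [Finset.filter_false_of_mem]
      · simp
      · intro p hp hpt
        refine ht ?_
        rw [mem_closedBall_zero_iff]
        have h5 := norm_le_of_mem_cube hL hpt
        have h6 := hFR p hp
        calc ‖t‖ = ‖p - (p - t)‖ := by rw [sub_sub_cancel]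
          _ ≤ ‖p‖ + ‖p - t‖ := norm_sub_le _ _
          _ ≤ _ := by linarith
  have h4 : (F.card : ℝ≥0∞) * ENNReal.ofReal L ^ d ≤
      maxCube d L * ENNReal.ofReal ((R + L * Real.sqrt d) ^ d * kappa d) := by
    calc (F.card : ℝ≥0∞) * ENNReal.ofReal L ^ d
        = ∑ p ∈ F, volume ((fun t => p - t) ⁻¹' cube d L) := by
          rw [Finset.sum_congr rfl fun p _ => h1 p]
          simp
      _ = _ := h2
      _ ≤ ∫⁻ t, (closedBall (0 : E d) (R + L * Real.sqrt d)).indicator
            (fun _ => (maxCube d L : ℝ≥0∞)) t := lintegral_mono h3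
      _ = _ := by
          rw [lintegral_indicator_const measurableSet_closedBall, vol_closedBall _ (by positivity)]
  have h5 := ENNReal.toReal_mono (by finiteness) h4
  rwa [ENNReal.toReal_mul, ENNReal.toReal_mul, ENNReal.toReal_pow, ENNReal.toReal_natCast,
    ENNReal.toReal_natCast, ENNReal.toReal_ofReal hL, ENNReal.toReal_ofReal (by positivity)] at h5

theorem finite_inter {d : ℕ} {P : Set (E d)} (hP : IsPacking P) {R : ℝ} (hR : 0 ≤ R) :
    (P ∩ closedBall 0 R).Finite := by
  by_contra h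
  obtain ⟨n, hn⟩ := exists_nat_gt
    ((maxCube d 1 : ℝ) * ((R + 1 * Real.sqrt d) ^ d * kappa d))
  obtain ⟨F, hF, hc⟩ := Set.Infinite.exists_subset_card_eq h n
  have h1 := count_le (L := 1) zero_le_one hR F
    (fun x hx y hy hxy => hP (hF hx).1 (hF hy).1 hxy) (fun p hp => by
      simpa using (hF hp).2)
  rw [hc, one_pow, mul_one] at h1
  linarith

theorem vol_inter_le {d : ℕ} {P : Set (E d)} (hP : IsPacking P) {R : ℝ} (hR : 0 ≤ R) {L : ℝ}
    (hL : 0 < L) : (volume (closedBall (0 : E d) R ∩ ⋃ x ∈ P, closedBall x 1)).toReal ≤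
      kappa d * (maxCube d L / L ^ d) * ((R + 1 + L * Real.sqrt d) ^ d * kappa d) := by
  classical
  have hR1 : 0 ≤ R + 1 := by linarith
  have hk := kappa_pos d
  obtain ⟨F, hF⟩ : ∃ F : Finset (E d), (F : Set (E d)) = P ∩ closedBall 0 (R + 1) :=
    ⟨(finite_inter hP hR1).toFinset, (finite_inter hP hR1).coe_toFinset⟩
  have h1 : closedBall (0 : E d) R ∩ ⋃ x ∈ P, closedBall x 1 ⊆ ⋃ x ∈ F, closedBall x 1 := by
    rintro z ⟨hz, hz2⟩
    simp only [Set.mem_iUnion, exists_prop] at hz2 ⊢
    obtain ⟨x, hx, hzx⟩ := hz2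
    refine ⟨x, ?_, hzx⟩
    have : x ∈ P ∩ closedBall 0 (R + 1) := by
      refine ⟨hx, ?_⟩
      rw [mem_closedBall] at hz hzx ⊢
      calc dist x 0 ≤ dist x z + dist z 0 := dist_triangle _ _ _
        _ ≤ R + 1 := by
          rw [dist_comm x z]
          linarith
    rw [← hF] at this
    exact_mod_cast this
  have h2 : volume (closedBall (0 : E d) R ∩ ⋃ x ∈ P, closedBall x 1) ≤
      F.card * ENNReal.ofReal (kappa d) := by
    calc _ ≤ volume (⋃ x ∈ F, closedBall x 1) := measure_mono h1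
      _ ≤ ∑ x ∈ F, volume (closedBall x 1) := measure_biUnion_finset_le _ _
      _ = _ := by
        rw [Finset.sum_congr rfl fun x _ => vol_closedBall x zero_le_one]
        simp
  have h3 := ENNReal.toReal_mono (by finiteness) h2
  rw [ENNReal.toReal_mul, ENNReal.toReal_natCast, ENNReal.toReal_ofReal hk.le] at h3
  have h4 := count_le hL.le hR1 F (by
    intro x hx y hy hxy
    rw [hF] at hx hy
    exact hP hx.1 hy.1 hxy) (fun p hp => by
      have : p ∈ (F : Set (E d)) := hp
      rw [hF] at this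
      simpa using this.2)
  have h5 : (F.card : ℝ) ≤ maxCube d L / L ^ d * ((R + 1 + L * Real.sqrt d) ^ d * kappa d) := by
    rw [div_mul_eq_mul_div, le_div_iff₀ (by positivity)]
    exact h4
  calc _ ≤ F.card * kappa d := h3
    _ ≤ (maxCube d L / L ^ d * ((R + 1 + L * Real.sqrt d) ^ d * kappa d)) * kappa d :=
        mul_le_mul_of_nonneg_right h5 hk.le
    _ = _ := by ring

theorem tendsto_ratio (d : ℕ) (c : ℝ) :
    Tendsto (fun R : ℝ => ((R + c) / R) ^ d) atTop (𝓝 1) := by
  have h1 : Tendsto (fun R : ℝ => 1 + c / R) atTop (𝓝 (1 + 0)) :=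
    (tendsto_const_nhds.div_atTop tendsto_id).const_add 1
  have h2 : Tendsto (fun R : ℝ => (R + c) / R) atTop (𝓝 1) := by
    rw [add_zero] at h1
    refine h1.congr' ?_
    filter_upwards [eventually_gt_atTop 0] with R hR
    field_simp
  simpa using h2.pow d

theorem toReal_vol {d : ℕ} {R : ℝ} (hR : 0 ≤ R) :
    (volume (closedBall (0 : E d) R)).toReal = R ^ d * kappa d := by
  rw [vol_closedBall _ hR, ENNReal.toReal_ofReal]
  have := kappa_pos d
  positivity

theorem upperDensity_le {d : ℕ} {P : Set (E d)} (hP : IsPacking P) {L : ℝ} (hL : 0 < L) :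
    upperDensity P ≤ kappa d * (maxCube d L / L ^ d) := by
  have hk := kappa_pos d
  have h1 : Tendsto (fun R : ℝ => kappa d * (maxCube d L / L ^ d) *
      ((R + (1 + L * Real.sqrt d)) / R) ^ d) atTop (𝓝 (kappa d * (maxCube d L / L ^ d))) := by
    simpa using (tendsto_ratio d (1 + L * Real.sqrt d)).const_mul
      (kappa d * (maxCube d L / L ^ d))
  rw [← h1.limsup_eq]
  refine limsup_le_limsup ?_ ?_ h1.isBoundedUnder_le
  · filter_upwards [eventually_gt_atTop 0] with R hR
    have h2 := vol_inter_le hP hR.le hL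
    rw [toReal_vol hR.le, div_le_iff₀ (by positivity)]
    calc _ ≤ _ := h2
      _ = _ := by
        rw [div_pow, add_assoc]
        field_simp
  · refine IsBoundedUnder.isCoboundedUnder_le ⟨0, ?_⟩
    refine eventually_map.2 (Eventually.of_forall fun R => ?_)
    exact div_nonneg ENNReal.toReal_nonneg ENNReal.toReal_nonneg

/-- the translation vector -/
noncomputable def vec (d : ℕ) (L : ℝ) (k : Fin d → ℤ) : E d :=
  WithLp.toLp 2 fun i => (L + 2) * k i

/-- the cell -/
def cell (d : ℕ) (L : ℝ) (k : Fin d → ℤ) : Set (E d) :=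
  {z | ∀ i, (L + 2) * k i + (-1) ≤ z i ∧ z i < (L + 2) * k i + (L + 1)}

theorem vol_cell' {d : ℕ} {L : ℝ} (k : Fin d → ℤ) :
    volume (cell d L k) = ENNReal.ofReal (L + 2) ^ d := by
  have h := vol_cell (d := d) (-1) (L + 1) fun i => (L + 2) * k i
  rw [show L + 1 - (-1) = L + 2 by ring] at h
  exact h

theorem cell_unique {d : ℕ} {L : ℝ} (hL : 0 < L) {k l : Fin d → ℤ} {z : E d}
    (hk : z ∈ cell d L k) (hl : z ∈ cell d L l) : k = l := by
  funext i
  have h1 := hk i
  have h2 := hl i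
  have h3 : ((k i : ℝ) - l i) < 1 := by
    by_contra h
    nlinarith
  have h4 : ((l i : ℝ) - k i) < 1 := by
    by_contra h
    nlinarith
  have h5 : k i - l i < 1 := by exact_mod_cast h3
  have h6 : l i - k i < 1 := by exact_mod_cast h4
  omega

theorem exists_cell {d : ℕ} {L : ℝ} (hL : 0 < L) (z : E d) : ∃ k, z ∈ cell d L k := by
  refine ⟨fun i => ⌊(z i + 1) / (L + 2)⌋, fun i => ?_⟩
  have hL2 : 0 < L + 2 := by linarith
  have h1 := Int.floor_le ((z i + 1) / (L + 2))
  have h2 := Int.lt_floor_add_one ((z i + 1) / (L + 2))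
  rw [le_div_iff₀ hL2] at h1
  rw [div_lt_iff₀ hL2] at h2
  constructor <;> nlinarith

theorem ball_subset_cell {d : ℕ} {L : ℝ} (k : Fin d → ℤ) {x : E d} (hx : x ∈ cube d L) :
    ball (x + vec d L k) 1 ⊆ cell d L k := by
  intro z hz i
  rw [mem_ball, dist_eq_norm] at hz
  have h1 : |z i - (x i + (L + 2) * k i)| < 1 := by
    have := (PiLp.norm_apply_le (z - (x + vec d L k)) i).trans_lt hz
    simpa [vec, Real.norm_eq_abs] using this
  rw [abs_lt] at h1
  have h2 := hx i
  constructor <;> linarith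

theorem cell_dist {d : ℕ} {L : ℝ} (hL : 0 < L) {k : Fin d → ℤ} {z w : E d}
    (hz : z ∈ cell d L k) (hw : w ∈ cell d L k) : ‖w - z‖ ≤ (L + 2) * Real.sqrt d := by
  refine norm_le_of_abs_le (by linarith) fun i => ?_
  have h1 := hz i
  have h2 := hw i
  rw [PiLp.sub_apply, abs_le]
  constructor <;> linarith

/-- the periodic packing -/
def per {d : ℕ} (L : ℝ) (X : Finset (E d)) : Set (E d) :=
  {z | ∃ k : Fin d → ℤ, ∃ x ∈ X, z = x + vec d L k}

theorem isPacking_per {d : ℕ} {L : ℝ} (hL : 0 < L) {X : Finset (E d)}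
    (hX : IsPacking (X : Set (E d))) (hc : (X : Set (E d)) ⊆ cube d L) :
    IsPacking (per L X) := by
  rintro _ ⟨k, x, hx, rfl⟩ _ ⟨l, y, hy, rfl⟩ hne
  by_cases hkl : k = l
  · subst hkl
    rw [dist_add_right]
    exact hX hx hy fun h => hne (by rw [h])
  · obtain ⟨i, hi⟩ := Function.ne_iff.1 hkl
    rw [dist_eq_norm]
    refine le_trans ?_ (PiLp.norm_apply_le (x + vec d L k - (y + vec d L l)) i)
    have h1 := hc hx i
    have h2 := hc hy i
    have h3 : (1 : ℝ) ≤ |(k i : ℝ) - l i| := by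
      have : 1 ≤ |k i - l i| := Int.one_le_abs (sub_ne_zero.2 hi)
      exact_mod_cast this
    simp only [vec, PiLp.sub_apply, PiLp.add_apply, Real.norm_eq_abs]
    rw [le_abs] at h3 ⊢
    rcases h3 with h3 | h3
    · left
      nlinarith
    · right
      nlinarith

theorem vol_balls {d : ℕ} {L : ℝ} {X : Finset (E d)}
    (hX : IsPacking (X : Set (E d))) (k : Fin d → ℤ) :
    volume (⋃ x ∈ X, ball (x + vec d L k) 1) = X.card * ENNReal.ofReal (kappa d) := by
  rw [measure_biUnion_finset]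
  · have h1 : ∀ x ∈ X, volume (ball (x + vec d L k) 1) = ENNReal.ofReal (kappa d) := by
      intro x _
      rw [Measure.addHaar_ball_center,
        ← Measure.addHaar_unitClosedBall_eq_addHaar_unitBall, kappa,
        ENNReal.ofReal_toReal measure_closedBall_lt_top.ne]
    rw [Finset.sum_congr rfl h1]
    simp
  · intro x hx y hy hxy
    refine ball_disjoint_ball ?_
    rw [dist_add_right]
    have := hX hx hy hxy
    linarith
  · intro x _
    exact measurableSet_ball

theorem le_vol {d : ℕ} {L : ℝ} (hL : 0 < L) {X : Finset (E d)}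
    (hX : IsPacking (X : Set (E d))) (hc : (X : Set (E d)) ⊆ cube d L) {R : ℝ}
    (hR : (L + 2) * Real.sqrt d ≤ R) :
    kappa d * (X.card / (L + 2) ^ d) * ((R - (L + 2) * Real.sqrt d) ^ d * kappa d) ≤
      (volume (closedBall (0 : E d) R ∩ ⋃ x ∈ per L X, closedBall x 1)).toReal := by
  have hk := kappa_pos d
  have hR' : 0 ≤ R - (L + 2) * Real.sqrt d := by linarith
  obtain ⟨S, hS⟩ : ∃ S : Set (Fin d → ℤ), S = {k | cell d L k ⊆ closedBall 0 R} := ⟨_, rfl⟩
  have h1 : closedBall (0 : E d) (R - (L + 2) * Real.sqrt d) ⊆ ⋃ k : S, cell d L k := by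
    intro z hz
    obtain ⟨k, hk⟩ := exists_cell hL z
    refine Set.mem_iUnion.2 ⟨⟨k, ?_⟩, hk⟩
    rw [hS]
    intro w hw
    rw [mem_closedBall_zero_iff] at hz ⊢
    have h2 := cell_dist hL hk hw
    calc ‖w‖ = ‖(w - z) + z‖ := by rw [sub_add_cancel]
      _ ≤ ‖w - z‖ + ‖z‖ := norm_add_le _ _
      _ ≤ R := by linarith
  have h2 : ENNReal.ofReal ((R - (L + 2) * Real.sqrt d) ^ d * kappa d) ≤
      ∑' _k : S, ENNReal.ofReal (L + 2) ^ d := by
    rw [← vol_closedBall (0 : E d) hR']
    calc _ ≤ volume (⋃ k : S, cell d L k) := measure_mono h1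
      _ ≤ ∑' k : S, volume (cell d L k) := measure_iUnion_le _
      _ = _ := by
        congr 1
        funext k
        exact vol_cell' _
  have h3 : volume (⋃ k : S, ⋃ x ∈ X, ball (x + vec d L k) 1) =
      ∑' _k : S, X.card * ENNReal.ofReal (kappa d) := by
    rw [measure_iUnion]
    · congr 1
      funext k
      exact vol_balls hX _
    · intro k l hkl
      refine Set.disjoint_left.2 fun z hz hz2 => ?_
      simp only [Set.mem_iUnion, exists_prop] at hz hz2
      obtain ⟨x, hx, hzx⟩ := hz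
      obtain ⟨y, hy, hzy⟩ := hz2
      exact hkl (Subtype.ext (cell_unique hL (ball_subset_cell _ (hc hx) hzx)
        (ball_subset_cell _ (hc hy) hzy)))
    · intro k
      exact Finset.measurableSet_biUnion _ fun x _ => measurableSet_ball
  have h4 : (⋃ k : S, ⋃ x ∈ X, ball (x + vec d L k) 1) ⊆
      closedBall (0 : E d) R ∩ ⋃ x ∈ per L X, closedBall x 1 := by
    intro z hz
    simp only [Set.mem_iUnion, exists_prop] at hz
    obtain ⟨k, x, hx, hzx⟩ := hz
    refine ⟨?_, ?_⟩
    · have hkS : ∀ l ∈ S, cell d L l ⊆ closedBall 0 R := by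
        intro l hl
        rw [hS] at hl
        exact hl
      exact hkS k k.2 (ball_subset_cell _ (hc hx) hzx)
    · simp only [Set.mem_iUnion, exists_prop]
      exact ⟨x + vec d L k, ⟨k, x, hx, rfl⟩, ball_subset_closedBall hzx⟩
  have h5 : (X.card * ENNReal.ofReal (kappa d)) *
      ENNReal.ofReal ((R - (L + 2) * Real.sqrt d) ^ d * kappa d) ≤
      ENNReal.ofReal (L + 2) ^ d *
        volume (closedBall (0 : E d) R ∩ ⋃ x ∈ per L X, closedBall x 1) := by
    calc _ ≤ (X.card * ENNReal.ofReal (kappa d)) * ∑' _k : S, ENNReal.ofReal (L + 2) ^ d := by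
          gcongr
      _ = ENNReal.ofReal (L + 2) ^ d * ∑' _k : S, X.card * ENNReal.ofReal (kappa d) := by
          rw [← ENNReal.tsum_mul_left, ← ENNReal.tsum_mul_left]
          congr 1
          funext k
          ring
      _ ≤ _ := by
          rw [← h3]
          gcongr
  have hfin : volume (closedBall (0 : E d) R ∩ ⋃ x ∈ per L X, closedBall x 1) ≠ ∞ :=
    ((measure_mono Set.inter_subset_left).trans_lt measure_closedBall_lt_top).ne
  have h6 := ENNReal.toReal_mono (by finiteness) h5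
  rw [ENNReal.toReal_mul, ENNReal.toReal_mul, ENNReal.toReal_mul, ENNReal.toReal_pow,
    ENNReal.toReal_natCast, ENNReal.toReal_ofReal hk.le, ENNReal.toReal_ofReal (by positivity),
    ENNReal.toReal_ofReal (by positivity)] at h6
  have hL2 : 0 < (L + 2) ^ d := by positivity
  refine le_of_mul_le_mul_left (a := (L + 2) ^ d) ?_ hL2
  calc _ = X.card * kappa d * ((R - (L + 2) * Real.sqrt d) ^ d * kappa d) := by
        field_simp
    _ ≤ _ := h6

end D2

open D2

theorem maxDensity_le {d : ℕ} (hd : 1 ≤ d) {P : Set (E d)} (hP : IsPacking P) :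
    upperDensity P ≤ kappa d * cubeDens d := by
  refine ge_of_tendsto ((tendsto_maxCube hd).const_mul (kappa d)) ?_
  filter_upwards [eventually_gt_atTop 0] with L hL
  exact upperDensity_le hP hL

theorem le_maxDensity {d : ℕ} (hd : 1 ≤ d) {L : ℝ} (hL : 0 < L) : ∃ P : Set (E d),
    IsPacking P ∧ kappa d * (maxCube d L / (L + 2) ^ d) ≤ upperDensity P := by
  have _ := hd
  obtain ⟨X, hX, hc, hcard⟩ := exists_maxCube d L
  refine ⟨per L X, isPacking_per hL hX hc, ?_⟩
  have hk := kappa_pos d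
  rw [← hcard]
  have h1 : Tendsto (fun R : ℝ => kappa d * (X.card / (L + 2) ^ d) *
      ((R + (-((L + 2) * Real.sqrt d))) / R) ^ d) atTop
      (𝓝 (kappa d * (X.card / (L + 2) ^ d))) := by
    simpa using (tendsto_ratio d (-((L + 2) * Real.sqrt d))).const_mul
      (kappa d * (X.card / (L + 2) ^ d))
  rw [← h1.limsup_eq]
  refine limsup_le_limsup ?_ h1.isBoundedUnder_ge.isCoboundedUnder_le ⟨1, ?_⟩
  · filter_upwards [eventually_gt_atTop 0, eventually_ge_atTop ((L + 2) * Real.sqrt d)] with R hR hR2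
    have h2 := le_vol hL hX hc hR2
    rw [toReal_vol hR.le, le_div_iff₀ (by positivity)]
    calc _ = _ := by
          rw [div_pow, ← sub_eq_add_neg]
          field_simp
      _ ≤ _ := h2
  · refine eventually_map.2 (Eventually.of_forall fun R => ?_)
    refine div_le_one_of_le₀ ?_ ENNReal.toReal_nonneg
    exact ENNReal.toReal_mono measure_closedBall_lt_top.ne (measure_mono Set.inter_subset_left)

theorem maxDensity_eq {d : ℕ} (hd : 1 ≤ d) : maxDensity d = kappa d * cubeDens d := by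
  have hk := kappa_pos d
  have hb : BddAbove {v | ∃ P : Set (E d), IsPacking P ∧ v = upperDensity P} := by
    refine ⟨kappa d * cubeDens d, ?_⟩
    rintro _ ⟨P, hP, rfl⟩
    exact maxDensity_le hd hP
  refine le_antisymm ?_ ?_
  · obtain ⟨P, hP, -⟩ := le_maxDensity hd (L := 1) one_pos
    refine csSup_le ⟨_, P, hP, rfl⟩ ?_
    rintro _ ⟨P, hP, rfl⟩
    exact maxDensity_le hd hP
  · rw [mul_comm, ← le_div_iff₀ hk]
    refine csSup_le ⟨_, 1, one_pos, rfl⟩ ?_
    rintro _ ⟨L, hL, rfl⟩
    obtain ⟨P, hP, h⟩ := le_maxDensity hd hL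
    rw [le_div_iff₀ hk, mul_comm]
    exact h.trans (le_csSup hb ⟨P, hP, rfl⟩)

end Pool.Agent.Sausage
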