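import Pool.Agent.Lib.MP_dcaa2d_sau.D1

/-!
# Row D3: large pieces of dense packings
-/

set_option autoImplicit false

open MeasureTheory Metric Set Filter Topology
open scoped Pointwise ENNReal NNReal

namespace Pool.Agent.Sausage

namespace D3

/-- The cube `[-ρ, L + ρ]^d`. -/
def box (d : ℕ) (ρ L : ℝ) : Set (E d) := {x | ∀ i, -ρ ≤ x i ∧ x i ≤ L + ρ}

theorem volume_box (d : ℕ) (ρ L : ℝ) (h : 0 ≤ L + 2 * ρ) :
    volume (box d ρ L) = ENNReal.ofReal ((L + 2 * ρ) ^ d) := by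
  have h1 : box d ρ L = (WithLp.ofLp : E d → Fin d → ℝ) ⁻¹'
      (Set.univ.pi fun _ => Set.Icc (-ρ) (L + ρ)) := by
    ext x
    simp only [box, Set.mem_ofPred_eq, Set.mem_preimage, Set.mem_pi, Set.mem_univ, forall_true_left,
      Set.mem_Icc]
  rw [h1, (PiLp.volume_preserving_ofLp (Fin d)).measure_preimage
    (MeasurableSet.univ_pi fun _ => measurableSet_Icc).nullMeasurableSet, volume_pi_pi]
  have e : ∀ i : Fin d, volume (Set.Icc (-ρ) (L + ρ)) = ENNReal.ofReal (L + 2 * ρ) := by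
    intro i
    rw [Real.volume_Icc]
    congr 1
    ring
  rw [Finset.prod_congr rfl fun i _ => e i, Finset.prod_const, Finset.card_univ, Fintype.card_fin,
    ENNReal.ofReal_pow h]

theorem convex_cube (d : ℕ) (L : ℝ) : Convex ℝ (cube d L) := by
  have : cube d L = ⋂ i, {x : E d | 0 ≤ x i} ∩ {x : E d | x i ≤ L} := by
    ext x
    simp [cube]
  rw [this]
  refine convex_iInter fun i => ?_
  exact (convex_halfSpace_ge (f := fun x : E d => x i) ⟨fun _ _ => rfl, fun _ _ => rfl⟩ 0).inter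
    (convex_halfSpace_le (f := fun x : E d => x i) ⟨fun _ _ => rfl, fun _ _ => rfl⟩ L)

theorem sub_box {d : ℕ} {ρ L : ℝ} {X : Set (E d)} (hX : X ⊆ cube d L) :
    convexHull ℝ X + closedBall (0 : E d) ρ ⊆ box d ρ L := by
  rintro z ⟨x, hx, b, hb, rfl⟩ i
  have h1 := convexHull_min hX (convex_cube d L) hx i
  have h2 : |b i| ≤ ρ := by
    have h3 : ‖b‖ ≤ ρ := by simpa using hb
    exact (PiLp.norm_apply_le b i).trans h3
  have h4 := abs_le.1 h2
  have h5 : (x + b) i = x i + b i := rfl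
  simp only [h5]
  constructor
  · linarith [h1.1, h4.1]
  · linarith [h1.2, h4.2]

theorem parVol_le {d : ℕ} {ρ L : ℝ} (h : 0 ≤ L + 2 * ρ) {X : Set (E d)} (hX : X ⊆ cube d L) :
    parVol X ρ ≤ (L + 2 * ρ) ^ d := by
  unfold parVol
  have h1 := measure_mono (μ := (volume : Measure (E d))) (sub_box (ρ := ρ) hX)
  rw [volume_box d ρ L h] at h1
  have h2 := ENNReal.toReal_mono ENNReal.ofReal_ne_top h1
  rwa [ENNReal.toReal_ofReal (pow_nonneg h d)] at h2

theorem deltaN_le_of_cube {d : ℕ} {ρ L : ℝ} (h : 0 ≤ L + 2 * ρ) {n : ℕ} (hn : n ≤ maxCube d L) :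
    deltaN d ρ n ≤ (L + 2 * ρ) ^ d / n := by
  obtain ⟨X, hP, hX, hc⟩ := exists_maxCube d L
  obtain ⟨Y, hYX, hYc⟩ := Finset.exists_subset_card_eq (hc ▸ hn : n ≤ X.card)
  have hYX' : (Y : Set (E d)) ⊆ X := by exact_mod_cast hYX
  have h1 : deltaN d ρ n ≤ parVol (Y : Set (E d)) ρ / n := by
    unfold deltaN
    apply csInf_le
    · refine ⟨0, ?_⟩
      rintro v ⟨Z, -, -, rfl⟩
      exact div_nonneg ENNReal.toReal_nonneg (Nat.cast_nonneg _)
    · exact ⟨Y, hP.mono hYX', hYc, rfl⟩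
  refine h1.trans ?_
  exact div_le_div_of_nonneg_right (parVol_le h (hYX'.trans hX)) (Nat.cast_nonneg _)

end D3

theorem deltaN_le {d : ℕ} (hd : 1 ≤ d) {ρ : ℝ} (hρ : 0 ≤ ρ) {ε : ℝ} (hε : 0 < ε) :
    ∀ᶠ n in atTop, deltaN d ρ n ≤ 1 / cubeDens d + ε := by
  have hd0 : d ≠ 0 := by omega
  set D := cubeDens d with hD
  have hD0 : 0 < D := cubeDens_pos hd
  -- a smaller density
  obtain ⟨D', hD'0, hD'D, hD'ε⟩ : ∃ D', 0 < D' ∧ D' < D ∧ 1 / D' < 1 / D + ε := by
    have hc : ContinuousAt (fun x : ℝ => 1 / x) D := by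
      apply ContinuousAt.div continuousAt_const continuousAt_id hD0.ne'
    have h1 : ∀ᶠ x in 𝓝 D, 1 / x < 1 / D + ε := by
      have := hc.tendsto
      exact this.eventually (Iio_mem_nhds (by linarith))
    have h2 : ∀ᶠ x in 𝓝 D, 0 < x := Ioi_mem_nhds hD0
    have h3 : ∀ᶠ x in 𝓝[<] D, 1 / x < 1 / D + ε ∧ 0 < x := nhdsWithin_le_nhds (h1.and h2)
    have h4 : ∀ᶠ x in 𝓝[<] D, x < D := self_mem_nhdsWithin
    obtain ⟨x, hx, hx'⟩ := (h3.and h4).exists
    exact ⟨x, hx.2, hx', hx.1⟩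
  -- the edge lengths
  set L : ℕ → ℝ := fun n => ((n : ℝ) / D') ^ ((d : ℝ)⁻¹) with hL
  have hLpow : ∀ n : ℕ, L n ^ d = (n : ℝ) / D' := by
    intro n
    exact Real.rpow_inv_natCast_pow (by positivity) hd0
  have hLtend : Tendsto L atTop atTop := by
    have h1 : Tendsto (fun x : ℝ => x ^ ((d : ℝ)⁻¹)) atTop atTop :=
      tendsto_rpow_atTop (by positivity)
    have h2 : Tendsto (fun n : ℕ => (n : ℝ) / D') atTop atTop :=
      tendsto_natCast_atTop_atTop.atTop_div_const hD'0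
    exact h1.comp h2
  have hmax : ∀ᶠ n : ℕ in atTop, D' < (maxCube d (L n) : ℝ) / L n ^ d :=
    ((tendsto_maxCube hd).comp hLtend).eventually (Ioi_mem_nhds hD'D)
  have hlim : Tendsto (fun n : ℕ => (1 + 2 * ρ / L n) ^ d / D') atTop (𝓝 (1 / D')) := by
    have h1 : Tendsto (fun n : ℕ => 2 * ρ / L n) atTop (𝓝 0) :=
      hLtend.const_div_atTop (2 * ρ)
    have h2 : Tendsto (fun n : ℕ => 1 + 2 * ρ / L n) atTop (𝓝 (1 + 0)) := h1.const_add 1
    have h3 := (h2.pow d).div_const D'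
    simpa using h3
  have hsm : ∀ᶠ n : ℕ in atTop, (1 + 2 * ρ / L n) ^ d / D' < 1 / D + ε :=
    hlim.eventually (Iio_mem_nhds hD'ε)
  have hLpos : ∀ᶠ n : ℕ in atTop, 0 < L n := hLtend.eventually (eventually_gt_atTop 0)
  filter_upwards [hmax, hsm, hLpos, eventually_ge_atTop 1] with n h1 h2 h3 h4
  have hn0 : (0 : ℝ) < n := by exact_mod_cast h4
  have hn : n ≤ maxCube d (L n) := by
    have h5 : D' * L n ^ d < (maxCube d (L n) : ℝ) := by
      rwa [lt_div_iff₀ (pow_pos h3 d)] at h1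
    have h6 : D' * L n ^ d = n := by
      rw [hLpow]
      field_simp
    rw [h6] at h5
    exact_mod_cast h5.le
  refine (D3.deltaN_le_of_cube (by positivity) hn).trans (le_of_lt ?_)
  refine lt_of_eq_of_lt ?_ h2
  have h7 : L n + 2 * ρ = L n * (1 + 2 * ρ / L n) := by
    field_simp
  rw [h7, mul_pow, hLpow]
  field_simp

end Pool.Agent.Sausage
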