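import Pool.Agent.Lib.MP_dcaa2d_sau.D2

/-!
# Replacement: the balls of radius `2` around a finite packing
-/

set_option autoImplicit false

open MeasureTheory Metric Set Filter Topology
open scoped Pointwise ENNReal NNReal

namespace Pool.Agent.Sausage

namespace D4

open D2

theorem card_le_count {d : ℕ} {L : ℝ} {X P : Finset (E d)} (hX : IsPacking (X : Set (E d)))
    (hP : IsPacking (P : Set (E d))) (hc : (P : Set (E d)) ⊆ cube d L)
    (hcard : P.card = maxCube d L) {t : E d} (ht : ∀ x ∈ X, x + t ∈ cube d L)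
    [DecidablePred fun p : E d => p - t ∈ ⋃ x ∈ X, ball x 2] :
    X.card ≤ (P.filter fun p => p - t ∈ ⋃ x ∈ X, ball x 2).card := by
  classical
  have hmem : ∀ p : E d, p - t ∉ (⋃ x ∈ X, ball x 2) ↔ ∀ x ∈ X, 2 ≤ dist p (x + t) := by
    intro p
    simp only [Set.mem_iUnion, exists_prop, mem_ball, not_exists, not_and, not_lt]
    refine forall₂_congr fun x _ => ?_
    rw [dist_eq_norm, dist_eq_norm, sub_sub, add_comm t x]
  have hdisj : Disjoint (P.filter fun p => p - t ∉ ⋃ x ∈ X, ball x 2) (X.image fun x => x + t) := by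
    refine Finset.disjoint_left.2 fun p hp hp2 => ?_
    obtain ⟨x, hx, rfl⟩ := Finset.mem_image.1 hp2
    have h1 := (hmem _).1 (Finset.mem_filter.1 hp).2 x hx
    rw [dist_self] at h1
    linarith
  have h1 : ((P.filter fun p => p - t ∉ ⋃ x ∈ X, ball x 2) ∪ (X.image fun x => x + t)).card ≤
      maxCube d L := by
    refine card_le_maxCube ?_ ?_
    · intro a ha b hb hab
      rw [Finset.mem_coe, Finset.mem_union] at ha hb
      rcases ha with ha | ha <;> rcases hb with hb | hb
      · exact hP (Finset.mem_filter.1 ha).1 (Finset.mem_filter.1 hb).1 hab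
      · obtain ⟨x, hx, rfl⟩ := Finset.mem_image.1 hb
        exact (hmem _).1 (Finset.mem_filter.1 ha).2 x hx
      · obtain ⟨x, hx, rfl⟩ := Finset.mem_image.1 ha
        rw [dist_comm]
        exact (hmem _).1 (Finset.mem_filter.1 hb).2 x hx
      · obtain ⟨x, hx, rfl⟩ := Finset.mem_image.1 ha
        obtain ⟨y, hy, rfl⟩ := Finset.mem_image.1 hb
        rw [dist_add_right]
        exact hX hx hy fun h => hab (by rw [h])
    · intro a ha
      rw [Finset.mem_coe, Finset.mem_union] at ha
      rcases ha with ha | ha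
      · exact hc (Finset.mem_filter.1 ha).1
      · obtain ⟨x, hx, rfl⟩ := Finset.mem_image.1 ha
        exact ht x hx
  rw [Finset.card_union_of_disjoint hdisj,
    Finset.card_image_of_injective _ (add_left_injective t), ← hcard] at h1
  have h2 := Finset.card_filter_add_card_filter_not (s := P)
    (fun p : E d => p - t ∈ ⋃ x ∈ X, ball x 2)
  omega

theorem replacement_cube {d : ℕ} {L B : ℝ} (hL : 2 * B ≤ L) {X : Finset (E d)}
    (hX : IsPacking (X : Set (E d))) (hB : ∀ x ∈ X, ∀ i, |x i| ≤ B) :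
    (X.card : ℝ) * (L - 2 * B) ^ d ≤
      maxCube d L * (volume (⋃ x ∈ X, closedBall x 2)).toReal := by
  classical
  obtain ⟨P, hP, hc, hcard⟩ := exists_maxCube d L
  obtain ⟨U, hU⟩ : ∃ U : Set (E d), U = ⋃ x ∈ X, ball x 2 := ⟨_, rfl⟩
  have hUm : MeasurableSet U := by
    rw [hU]
    exact Finset.measurableSet_biUnion _ fun x _ => measurableSet_ball
  obtain ⟨T, hT⟩ : ∃ T : Set (E d), T = {x | ∀ i, 0 + B ≤ x i ∧ x i < 0 + (L - B)} := ⟨_, rfl⟩
  have hTv : volume T = ENNReal.ofReal (L - 2 * B) ^ d := by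
    rw [hT, show L - 2 * B = L - B - B by ring]
    exact vol_cell B (L - B) fun _ => 0
  have hTm : MeasurableSet T := by
    rw [hT]
    have : {x : E d | ∀ i, 0 + B ≤ x i ∧ x i < 0 + (L - B)} =
        (WithLp.ofLp) ⁻¹' (Set.pi univ fun i => Ico (0 + B) (0 + (L - B))) := by
      ext x
      simp [Set.mem_pi]
    rw [this]
    exact (PiLp.volume_preserving_ofLp (Fin d)).measurable
      (MeasurableSet.univ_pi fun i => measurableSet_Ico)
  have h1 : ∀ p : E d, volume ((fun t => p - t) ⁻¹' U) = volume U := fun p =>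
    (volume.measurePreserving_sub_left p).measure_preimage hUm.nullMeasurableSet
  have hm : ∀ p : E d, MeasurableSet ((fun t => p - t) ⁻¹' U) := fun p =>
    (volume.measurePreserving_sub_left p).measurable hUm
  have h2 : ∑ p ∈ P, volume ((fun t => p - t) ⁻¹' U) =
      ∫⁻ t, ∑ p ∈ P, ((fun t => p - t) ⁻¹' U).indicator 1 t := by
    rw [lintegral_finsetSum]
    · refine Finset.sum_congr rfl fun p _ => ?_
      rw [lintegral_indicator_one (hm p)]
    · intro p _
      exact measurable_one.indicator (hm p)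
  have h3 : ∀ t : E d, T.indicator (fun _ => (X.card : ℝ≥0∞)) t ≤
      ∑ p ∈ P, ((fun t => p - t) ⁻¹' U).indicator (1 : E d → ℝ≥0∞) t := by
    intro t
    by_cases ht : t ∈ T
    · rw [Set.indicator_of_mem ht]
      have h4 : ∑ p ∈ P, ((fun t => p - t) ⁻¹' U).indicator (1 : E d → ℝ≥0∞) t =
          ((P.filter fun p => p - t ∈ U).card : ℝ≥0∞) := by
        rw [Finset.card_filter, Nat.cast_sum]
        refine Finset.sum_congr rfl fun p _ => ?_
        simp only [Set.indicator, Set.mem_preimage, Pi.one_apply]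
        split_ifs <;> simp
      rw [h4]
      subst hU
      rw [hT] at ht
      have h5 := card_le_count hX hP hc hcard (t := t) (fun x hx i => by
        have h6 := abs_le.1 (hB x hx i)
        have h7 := ht i
        rw [PiLp.add_apply]
        constructor <;> linarith)
      exact_mod_cast h5
    · rw [Set.indicator_of_notMem ht]
      exact zero_le
  have h4 : (X.card : ℝ≥0∞) * ENNReal.ofReal (L - 2 * B) ^ d ≤
      maxCube d L * volume (⋃ x ∈ X, closedBall x 2) := by
    calc (X.card : ℝ≥0∞) * ENNReal.ofReal (L - 2 * B) ^ d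
        = ∫⁻ t, T.indicator (fun _ => (X.card : ℝ≥0∞)) t := by
          rw [lintegral_indicator_const hTm, hTv]
      _ ≤ _ := lintegral_mono h3
      _ = P.card * volume U := by
          rw [← h2, Finset.sum_congr rfl fun p _ => h1 p]
          simp
      _ ≤ _ := by
          rw [hcard, hU]
          gcongr
          exact ball_subset_closedBall
  have hfin : volume (⋃ x ∈ X, closedBall x (2 : ℝ)) ≠ ∞ := by
    refine ((measure_biUnion_finset_le _ _).trans_lt ?_).ne
    exact ENNReal.sum_lt_top.2 fun x _ => measure_closedBall_lt_top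
  have h5 := ENNReal.toReal_mono (by finiteness) h4
  rwa [ENNReal.toReal_mul, ENNReal.toReal_mul, ENNReal.toReal_pow, ENNReal.toReal_natCast,
    ENNReal.toReal_natCast, ENNReal.toReal_ofReal (by linarith)] at h5

end D4

open D2 D4

theorem replacement {d : ℕ} (hd : 1 ≤ d) {X : Finset (E d)} (hX : IsPacking (X : Set (E d))) :
    (X.card : ℝ) ≤ cubeDens d * (volume (⋃ x ∈ X, closedBall x 2)).toReal := by
  obtain ⟨B, hB⟩ : ∃ B : ℝ, ∀ x ∈ X, ∀ i, |x i| ≤ B := by
    refine ⟨∑ x ∈ X, ‖x‖, fun x hx i => ?_⟩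
    calc |x i| = ‖x i‖ := rfl
      _ ≤ ‖x‖ := PiLp.norm_apply_le x i
      _ ≤ _ := Finset.single_le_sum (f := fun x : E d => ‖x‖) (fun _ _ => norm_nonneg _) hx
  have h1 : Tendsto (fun L : ℝ => (X.card : ℝ) * ((L + (-(2 * B))) / L) ^ d) atTop
      (𝓝 ((X.card : ℝ) * 1)) := (tendsto_ratio d (-(2 * B))).const_mul _
  have h2 := (tendsto_maxCube hd).mul_const (volume (⋃ x ∈ X, closedBall x (2 : ℝ))).toReal
  rw [mul_one] at h1
  refine le_of_tendsto_of_tendsto h1 h2 ?_
  filter_upwards [eventually_gt_atTop 0, eventually_ge_atTop (2 * B)] with L hL hL2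
  have h3 := replacement_cube hL2 hX hB
  rw [div_pow, ← mul_div_assoc, div_mul_eq_mul_div]
  exact div_le_div_of_nonneg_right (by rw [← sub_eq_add_neg]; exact h3) (by positivity)

end Pool.Agent.Sausage
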