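import Pool.Agent.Lib.MP_dcaa2d_sau.Basic

/-!
# Auxiliary definitions
-/

set_option autoImplicit false

open MeasureTheory Metric Set Filter Topology
open scoped Pointwise ENNReal NNReal

namespace Pool.Agent.Sausage

/-- The cube with edge length `L`. -/
def cube (d : ℕ) (L : ℝ) : Set (E d) := {x | ∀ i, 0 ≤ x i ∧ x i ≤ L}

/-- The largest number of points of a packing in the cube with edge length `L`. -/
noncomputable def maxCube (d : ℕ) (L : ℝ) : ℕ :=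
  sSup {n | ∃ X : Finset (E d), IsPacking (X : Set (E d)) ∧ (X : Set (E d)) ⊆ cube d L ∧
    X.card = n}

/-- The density of centres in large cubes. -/
noncomputable def cubeDens (d : ℕ) : ℝ :=
  sSup {v | ∃ L : ℝ, 0 < L ∧ v = maxCube d L / (L + 2) ^ d}

/-! ### The integral inequality on the line -/

/-- `√(b² + t²)` -/
noncomputable def rad (b t : ℝ) : ℝ := Real.sqrt (b ^ 2 + t ^ 2)

/-- `ψ` is Lipschitz with constant `1`, `u ≤ ψ u`, and `ψ / rad b` is Lipschitz with constant `1`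
with respect to the angle. -/
structure IsProf (b : ℝ) (ψ : ℝ → ℝ) : Prop where
  lip : ∀ u v, |ψ u - ψ v| ≤ |u - v|
  ge : ∀ u, u ≤ ψ u
  sph : ∀ u v, |ψ u / rad b u - ψ v / rad b v| ≤ |Real.arctan (u / b) - Real.arctan (v / b)|

/-- `√(b² + t² - ψ₊(t)²)` -/
noncomputable def hgt (ψ : ℝ → ℝ) (b t : ℝ) : ℝ := Real.sqrt (b ^ 2 + t ^ 2 - (max (ψ t) 0) ^ 2)

/-- The set of the `t` with `ψ₊(t) ≤ (11/25) √(b² + t²)`. -/
def low (ψ : ℝ → ℝ) (b : ℝ) : Set ℝ := {t | max (ψ t) 0 ≤ 11 / 25 * rad b t}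

/-- The conditions on `d` and `q = (ρ/2)^d`. -/
structure Num (d : ℕ) (q : ℝ) : Prop where
  pos : 0 < q
  le_one : q ≤ 1
  n0 : Real.sqrt (99 / 100) ^ d ≤ q
  n1 : (∫ u in (0 : ℝ)..(23 / 100), ((rad 1 u)⁻¹) ^ d) +
    (1 - q) * (∫ u in (Icc (0 : ℝ) (23 / 100))ᶜ, ((rad 1 u)⁻¹) ^ d) ≤ 23 / 100 * q
  n2 : (1 - q) * (Real.pi / 2) ≤ 1 / 10 * (q * ((Real.sqrt (99 / 100))⁻¹) ^ d - 1)

/-- The integral inequality for `b = 1` (statement). -/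
def UnitD (d : ℕ) (q : ℝ) : Prop := ∀ ψ : ℝ → ℝ, IsProf 1 ψ →
  ∫ t in low ψ 1, ((rad 1 t)⁻¹) ^ d ≤ q * ∫ t in low ψ 1, ((hgt ψ 1 t)⁻¹) ^ d

/-- The integral inequality (statement). -/
def OneD (d : ℕ) (q : ℝ) : Prop := ∀ (ψ : ℝ → ℝ) (b : ℝ), 0 < b → IsProf b ψ →
  ∫ t in low ψ b, ((rad b t)⁻¹) ^ d ≤ q * ∫ t in low ψ b, ((hgt ψ b t)⁻¹) ^ d

/-! ### Cells -/

/-- The part of the ball of radius `2` in the Voronoi cell of `0` with respect to `V`. -/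
def cellA {d : ℕ} (V : Finset (E d)) : Set (E d) :=
  {z | ‖z‖ ≤ 2 ∧ ∀ v ∈ V, inner ℝ z v ≤ ‖v‖ ^ 2 / 2}

/-- The part of the open Voronoi cell of `0` with respect to `V` which has distance at most `ρ` to
`0` or (orthogonally) to a segment `[0, v]`. -/
def cellB {d : ℕ} (V : Finset (E d)) (ρ : ℝ) : Set (E d) :=
  {z | (∀ v ∈ V, inner ℝ z v < ‖v‖ ^ 2 / 2) ∧
    (‖z‖ ≤ ρ ∨ ∃ v ∈ V, 0 ≤ inner ℝ z v ∧ ‖z‖ ^ 2 - (inner ℝ z v) ^ 2 / ‖v‖ ^ 2 ≤ ρ ^ 2)}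

/-- The comparison of the cells (statement). -/
def CellLe (d : ℕ) (ρ : ℝ) : Prop := ∀ V : Finset (E d), V.Nonempty → (∀ v ∈ V, 2 ≤ ‖v‖) →
  volume (cellA V) ≤ volume (cellB V ρ)

/-- The comparison for finite packings (statement). -/
def PackLe (d : ℕ) (ρ : ℝ) : Prop := ∀ X : Finset (E d), IsPacking (X : Set (E d)) → 2 ≤ X.card →
  volume (⋃ x ∈ X, closedBall x 2) ≤ volume (convexHull ℝ (X : Set (E d)) + closedBall (0 : E d) ρ)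

/-! ### Cells in coordinates -/

/-- The Euclidean norm squared of a pair. -/
def nsq {m : ℕ} (z : ℝ × (Fin m → ℝ)) : ℝ := z.1 ^ 2 + ∑ i, z.2 i ^ 2

/-- The inner product of pairs. -/
def ip {m : ℕ} (z w : ℝ × (Fin m → ℝ)) : ℝ := z.1 * w.1 + ∑ i, z.2 i * w.2 i

/-- `cellA` in coordinates. -/
def cA {m : ℕ} (V : Finset (ℝ × (Fin m → ℝ))) : Set (ℝ × (Fin m → ℝ)) :=
  {z | nsq z ≤ 4 ∧ ∀ v ∈ V, ip z v ≤ nsq v / 2}

/-- `cellB` in coordinates. -/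
def cB {m : ℕ} (V : Finset (ℝ × (Fin m → ℝ))) (ρ : ℝ) : Set (ℝ × (Fin m → ℝ)) :=
  {z | (∀ v ∈ V, ip z v < nsq v / 2) ∧
    (nsq z ≤ ρ ^ 2 ∨ ∃ v ∈ V, 0 ≤ ip z v ∧ nsq z - (ip z v) ^ 2 / nsq v ≤ ρ ^ 2)}

/-- The radial integral of the set `A` in the direction `z`. -/
noncomputable def radial {m : ℕ} (A : Set (ℝ × (Fin m → ℝ))) (z : ℝ × (Fin m → ℝ)) : ℝ≥0∞ :=
  ∫⁻ s in Ioi (0 : ℝ), A.indicator 1 (s • z) * ENNReal.ofReal (s ^ m)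

/-- The comparison of the cells in coordinates (statement). -/
def CoordLe (m : ℕ) (ρ : ℝ) : Prop := ∀ V : Finset (ℝ × (Fin m → ℝ)), (∀ v ∈ V, 4 ≤ nsq v) →
  (∃ D : ℝ, 2 ≤ D ∧ ((D, 0) : ℝ × (Fin m → ℝ)) ∈ V) → volume (cA V) ≤ volume (cB V ρ)

end Pool.Agent.Sausage
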