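import Pool.Agent.Lib.MP_dcaa2d_sau.Defs

/-!
# Voronoi cells
-/

set_option autoImplicit false

open MeasureTheory Metric Set Filter Topology
open scoped Pointwise ENNReal NNReal

namespace Pool.Agent.Sausage

namespace G1

/-- the differences -/
noncomputable def nb {d : ℕ} (X : Finset (E d)) (x : E d) : Finset (E d) := by
  classical
  exact (X.erase x).image fun y => y - x

theorem mem_nb {d : ℕ} {X : Finset (E d)} {x v : E d} :
    v ∈ nb X x ↔ ∃ y ∈ X, y ≠ x ∧ v = y - x := by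
  classical
  simp only [nb, Finset.mem_image, Finset.mem_erase]
  constructor
  · rintro ⟨y, ⟨h1, h2⟩, rfl⟩
    exact ⟨y, h2, h1, rfl⟩
  · rintro ⟨y, h2, h1, rfl⟩
    exact ⟨y, ⟨h1, h2⟩, rfl⟩

theorem nb_nonempty {d : ℕ} {X : Finset (E d)} (hX : 2 ≤ X.card) (x : E d) :
    (nb X x).Nonempty := by
  obtain ⟨y, hy, hyx⟩ := Finset.exists_mem_ne (by omega : 1 < X.card) x
  exact ⟨y - x, mem_nb.2 ⟨y, hy, hyx, rfl⟩⟩

theorem two_le_norm_nb {d : ℕ} {X : Finset (E d)} (hX : IsPacking (X : Set (E d))) {x : E d}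
    (hx : x ∈ X) : ∀ v ∈ nb X x, 2 ≤ ‖v‖ := by
  intro v hv
  obtain ⟨y, hy, hyx, rfl⟩ := mem_nb.1 hv
  rw [← dist_eq_norm]
  exact hX hy hx hyx

theorem measurableSet_cellB {d : ℕ} (V : Finset (E d)) (ρ : ℝ) : MeasurableSet (cellB V ρ) := by
  have h1 : cellB V ρ = (⋂ v ∈ V, {z : E d | inner ℝ z v < ‖v‖ ^ 2 / 2}) ∩
      ({z : E d | ‖z‖ ≤ ρ} ∪ ⋃ v ∈ V, ({z : E d | 0 ≤ inner ℝ z v} ∩
        {z : E d | ‖z‖ ^ 2 - (inner ℝ z v) ^ 2 / ‖v‖ ^ 2 ≤ ρ ^ 2})) := by
    ext z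
    simp only [cellB, Set.mem_ofPred_eq, Set.mem_inter_iff, Set.mem_iInter, Set.mem_union,
      Set.mem_iUnion, exists_prop]
  rw [h1]
  refine MeasurableSet.inter ?_ (MeasurableSet.union ?_ ?_)
  · refine Finset.measurableSet_biInter _ fun v _ => ?_
    exact (isOpen_lt (by fun_prop) continuous_const).measurableSet
  · exact (isClosed_le continuous_norm continuous_const).measurableSet
  · refine Finset.measurableSet_biUnion _ fun v _ => MeasurableSet.inter ?_ ?_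
    · exact (isClosed_le continuous_const (by fun_prop)).measurableSet
    · exact (isClosed_le (by fun_prop) continuous_const).measurableSet

theorem subset_cellA {d : ℕ} {X : Finset (E d)} :
    (⋃ x ∈ X, closedBall x 2) ⊆ ⋃ x ∈ X, (fun z => z + -x) ⁻¹' cellA (nb X x) := by
  intro z hz
  simp only [Set.mem_iUnion, exists_prop] at hz
  obtain ⟨w, hw, hzw⟩ := hz
  obtain ⟨x, hx, hmin⟩ := X.exists_min_image (fun y => dist z y) ⟨w, hw⟩
  simp only [Set.mem_iUnion, exists_prop]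
  refine ⟨x, hx, ?_, ?_⟩
  · change ‖z + -x‖ ≤ 2
    rw [← sub_eq_add_neg, ← dist_eq_norm]
    exact (hmin w hw).trans hzw
  · intro v hv
    obtain ⟨y, hy, hyx, rfl⟩ := mem_nb.1 hv
    have h1 := hmin y hy
    simp only [dist_eq_norm] at h1
    have h2 : ‖z - x‖ ^ 2 ≤ ‖z - y‖ ^ 2 := pow_le_pow_left₀ (norm_nonneg _) h1 2
    rw [show z - y = (z - x) - (y - x) by abel, norm_sub_sq_real (z - x) (y - x)] at h2
    change inner ℝ (z + -x) (y - x) ≤ ‖y - x‖ ^ 2 / 2
    rw [← sub_eq_add_neg]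
    linarith

theorem disjoint_cellB {d : ℕ} {X : Finset (E d)} {ρ : ℝ} {x y : E d} (hx : x ∈ X) (hy : y ∈ X)
    (hxy : x ≠ y) : Disjoint ((fun z => z + -x) ⁻¹' cellB (nb X x) ρ)
      ((fun z => z + -y) ⁻¹' cellB (nb X y) ρ) := by
  refine Set.disjoint_left.2 fun z hz1 hz2 => ?_
  have h1 := hz1.1 (y - x) (mem_nb.2 ⟨y, hy, hxy.symm, rfl⟩)
  have h2 := hz2.1 (x - y) (mem_nb.2 ⟨x, hx, hxy, rfl⟩)
  simp only [← sub_eq_add_neg] at h1 h2
  have h3 : inner ℝ (z - x) (y - x) + inner ℝ (z - y) (x - y) = ‖y - x‖ ^ 2 := by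
    rw [show x - y = -(y - x) by abel, inner_neg_right, ← sub_eq_add_neg, ← inner_sub_left,
      show z - x - (z - y) = y - x by abel, real_inner_self_eq_norm_sq]
  rw [norm_sub_rev x y] at h2
  linarith

theorem cellB_subset {d : ℕ} {X : Finset (E d)} {ρ : ℝ} (hρ : 0 ≤ ρ)
    (hX : IsPacking (X : Set (E d))) :
    (⋃ x ∈ X, (fun z => z + -x) ⁻¹' cellB (nb X x) ρ) ⊆
      convexHull ℝ (X : Set (E d)) + closedBall (0 : E d) ρ := by
  intro z hz
  simp only [Set.mem_iUnion, exists_prop] at hz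
  obtain ⟨x, hx, hz1, hz2⟩ := hz
  simp only [← sub_eq_add_neg] at hz1 hz2
  have hxc : x ∈ convexHull ℝ (X : Set (E d)) := subset_convexHull ℝ _ hx
  rcases hz2 with hz2 | ⟨v, hv, hv0, hv1⟩
  · exact Set.mem_add.2 ⟨x, hxc, z - x, by simpa using hz2, by abel⟩
  · have hv2 := hz1 v hv
    have hn := two_le_norm_nb hX hx v hv
    obtain ⟨y, hy, hyx, rfl⟩ := mem_nb.1 hv
    have hyc : y ∈ convexHull ℝ (X : Set (E d)) := subset_convexHull ℝ _ hy
    obtain ⟨N, hN⟩ : ∃ N, N = ‖y - x‖ ^ 2 := ⟨_, rfl⟩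
    obtain ⟨I, hI⟩ : ∃ I, I = inner ℝ (z - x) (y - x) := ⟨_, rfl⟩
    have hN0 : 0 < N := by
      rw [hN]
      positivity
    rw [← hI, ← hN] at hv1 hv2
    rw [← hI] at hv0
    have hs0 : 0 ≤ I / N := by positivity
    have hs1 : I / N ≤ 1 := by
      rw [div_le_one hN0]
      linarith
    have hpc : (1 - I / N) • x + (I / N) • y ∈ convexHull ℝ (X : Set (E d)) :=
      convex_convexHull ℝ _ hxc hyc (by linarith) hs0 (by ring)
    refine Set.mem_add.2 ⟨_, hpc, z - ((1 - I / N) • x + (I / N) • y), ?_, by abel⟩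
    rw [mem_closedBall_zero_iff]
    refine abs_le_of_sq_le_sq' ?_ hρ |>.2
    have h1 : z - ((1 - I / N) • x + (I / N) • y) = (z - x) - (I / N) • (y - x) := by
      rw [sub_smul, smul_sub, one_smul]
      abel
    rw [h1, norm_sub_sq_real, inner_smul_right, norm_smul, mul_pow, ← hN, ← hI, Real.norm_eq_abs,
      sq_abs]
    calc ‖z - x‖ ^ 2 - 2 * (I / N * I) + (I / N) ^ 2 * N = ‖z - x‖ ^ 2 - I ^ 2 / N := by
          field_simp
          ring
      _ ≤ ρ ^ 2 := hv1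

end G1

open G1

theorem packLe_of_cellLe {d : ℕ} {ρ : ℝ} (hρ : 0 ≤ ρ) (h : CellLe d ρ) : PackLe d ρ := by
  intro X hX h2
  calc volume (⋃ x ∈ X, closedBall x 2)
      ≤ volume (⋃ x ∈ X, (fun z => z + -x) ⁻¹' cellA (nb X x)) := measure_mono subset_cellA
    _ ≤ ∑ x ∈ X, volume ((fun z => z + -x) ⁻¹' cellA (nb X x)) := measure_biUnion_finset_le _ _
    _ = ∑ x ∈ X, volume (cellA (nb X x)) := by
        refine Finset.sum_congr rfl fun x _ => ?_
        exact measure_preimage_add_right _ _ _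
    _ ≤ ∑ x ∈ X, volume (cellB (nb X x) ρ) :=
        Finset.sum_le_sum fun x hx => h _ (nb_nonempty h2 x) (two_le_norm_nb hX hx)
    _ = ∑ x ∈ X, volume ((fun z => z + -x) ⁻¹' cellB (nb X x) ρ) := by
        refine Finset.sum_congr rfl fun x _ => ?_
        exact (measure_preimage_add_right _ _ _).symm
    _ = volume (⋃ x ∈ X, (fun z => z + -x) ⁻¹' cellB (nb X x) ρ) := by
        rw [measure_biUnion_finset]
        · intro x hx y hy hxy
          exact disjoint_cellB hx hy hxy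
        · intro x _
          exact (measurable_add_const (-x)) (measurableSet_cellB _ _)
    _ ≤ _ := measure_mono (cellB_subset hρ hX)

end Pool.Agent.Sausage
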