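import Pool.Agent.Lib.MP_dcaa2d_sau.Defs

/-!
# Row G2: rotation and coordinates
-/

set_option autoImplicit false

open MeasureTheory Metric Set Filter Topology
open scoped Pointwise ENNReal NNReal

namespace Pool.Agent.Sausage

namespace G2

variable {m : ℕ}

/-- The coordinates of a point: the first one and the others. -/
noncomputable def co (m : ℕ) : E (m + 1) ≃ᵐ ℝ × (Fin m → ℝ) :=
  (MeasurableEquiv.toLp 2 (Fin (m + 1) → ℝ)).symm.trans
    (MeasurableEquiv.piFinSuccAbove (fun _ : Fin (m + 1) => ℝ) 0)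

lemma co_fst (z : E (m + 1)) : (co m z).1 = z 0 := rfl

lemma co_snd (z : E (m + 1)) (i : Fin m) : (co m z).2 i = z i.succ := rfl

lemma mp_co : MeasurePreserving (co m) volume volume :=
  (volume_preserving_piFinSuccAbove (fun _ : Fin (m + 1) => ℝ) 0).comp
    (EuclideanSpace.volume_preserving_symm_measurableEquiv_toLp (Fin (m + 1)))

lemma ip_co (z w : E (m + 1)) : ip (co m z) (co m w) = inner ℝ z w := by
  unfold ip
  simp_rw [co_fst, co_snd]
  rw [PiLp.inner_apply, Fin.sum_univ_succ]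
  simp [mul_comm]

lemma nsq_eq_ip (z : ℝ × (Fin m → ℝ)) : nsq z = ip z z := by
  unfold nsq ip
  simp [sq]

lemma nsq_co (z : E (m + 1)) : nsq (co m z) = ‖z‖ ^ 2 := by
  rw [nsq_eq_ip, ip_co, real_inner_self_eq_norm_sq]

end G2

open G2 in
theorem cellLe_of_coordLe {m : ℕ} {ρ : ℝ} (hρ : 0 ≤ ρ) (h : CoordLe m ρ) :
    CellLe (m + 1) ρ := by
  classical
  intro V hV hV2
  obtain ⟨v1, hv1⟩ := hV
  set e : E (m + 1) := EuclideanSpace.single 0 ‖v1‖ with he
  have hn : ‖v1‖ = ‖e‖ := by rw [he]; simp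
  set R := (ℝ ∙ (v1 - e))ᗮ.reflection with hRdef
  have hR : R v1 = e := Submodule.reflection_sub hn
  set F : E (m + 1) ≃ᵐ ℝ × (Fin m → ℝ) := R.toMeasurableEquiv.trans (co m) with hF
  have hFa : ∀ z, F z = co m (R z) := fun z => rfl
  have hFm : MeasurePreserving F volume volume := mp_co.comp R.measurePreserving
  have hip : ∀ z w, ip (F z) (F w) = inner ℝ z w := by
    intro z w
    rw [hFa, hFa, ip_co]
    exact R.inner_map_map z w
  have hns : ∀ z, nsq (F z) = ‖z‖ ^ 2 := by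
    intro z
    rw [hFa, nsq_co, R.norm_map]
  set V' : Finset (ℝ × (Fin m → ℝ)) := V.image F with hV'
  have hall : ∀ p : ℝ × (Fin m → ℝ) → Prop, (∀ v ∈ V', p v) ↔ ∀ v ∈ V, p (F v) := by
    intro p
    rw [hV']
    simp only [Finset.mem_image, forall_exists_index, and_imp, forall_apply_eq_imp_iff₂]
  have hex : ∀ p : ℝ × (Fin m → ℝ) → Prop, (∃ v ∈ V', p v) ↔ ∃ v ∈ V, p (F v) := by
    intro p
    rw [hV']
    simp only [Finset.mem_image, exists_exists_and_eq_and]
  have h1 := h V' ((hall _).2 fun v hv => by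
      rw [hns]
      have := hV2 v hv
      nlinarith) ⟨‖v1‖, hV2 v1 hv1, by
      rw [hV', Finset.mem_image]
      refine ⟨v1, hv1, ?_⟩
      rw [hFa, hR]
      ext i
      · rw [co_fst, he]; simp
      · rw [co_snd, he]; simp⟩
  have hA : F ⁻¹' (cA V') = cellA V := by
    ext z
    simp only [cA, cellA, Set.mem_preimage, Set.mem_ofPred_eq, hall, hip, hns]
    constructor
    · rintro ⟨h2, h3⟩
      exact ⟨by nlinarith [norm_nonneg z], h3⟩
    · rintro ⟨h2, h3⟩
      exact ⟨by nlinarith [norm_nonneg z], h3⟩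
  have hB : F ⁻¹' (cB V' ρ) = cellB V ρ := by
    ext z
    have h2 : ‖z‖ ^ 2 ≤ ρ ^ 2 ↔ ‖z‖ ≤ ρ := by
      rw [sq_le_sq, abs_of_nonneg (norm_nonneg z), abs_of_nonneg hρ]
    simp only [cB, cellB, Set.mem_preimage, Set.mem_ofPred_eq, hall, hex, hip, hns, h2]
  rw [← hA, ← hB, hFm.measure_preimage_equiv, hFm.measure_preimage_equiv]
  exact h1

end Pool.Agent.Sausage
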