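import Pool.Agent.Lib.MP_dcaa2d_sau.A0

/-!
# Row G3: radial integration
-/

set_option autoImplicit false

open MeasureTheory Metric Set Filter Topology
open scoped Pointwise ENNReal NNReal

namespace Pool.Agent.Sausage

/-- the annulus -/
private def ann (m : ℕ) : Set (Fin m → ℝ) := {y | 1 ≤ ∑ i, y i ^ 2 ∧ ∑ i, y i ^ 2 ≤ 4}

private theorem measurableSet_ann (m : ℕ) : MeasurableSet (ann m) := by
  have h : Measurable fun y : Fin m → ℝ => ∑ i, y i ^ 2 := by fun_prop
  exact (measurableSet_le measurable_const h).inter (measurableSet_le h measurable_const)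

/-- integral over the rays of the indicator of the annulus -/
private theorem inner_log {m : ℕ} (y : Fin m → ℝ) (hy : y ≠ 0) :
    ∫⁻ s in Ioi (0 : ℝ), (ann m).indicator (fun _ => ENNReal.ofReal s⁻¹) (s⁻¹ • y) =
      ENNReal.ofReal (Real.log 2) := by
  set r2 : ℝ := ∑ i, y i ^ 2 with hr2
  have hr2pos : 0 < r2 := by
    rw [hr2]
    obtain ⟨i, hi⟩ : ∃ i, y i ≠ 0 := by
      by_contra h
      push Not at h
      exact hy (funext h)
    refine lt_of_lt_of_le (by positivity : 0 < y i ^ 2) ?_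
    exact Finset.single_le_sum (f := fun i => y i ^ 2) (fun j _ => sq_nonneg (y j))
      (Finset.mem_univ i)
  set r : ℝ := Real.sqrt r2 with hr
  have hr0 : 0 < r := Real.sqrt_pos.2 hr2pos
  have hrsq : r ^ 2 = r2 := Real.sq_sqrt hr2pos.le
  have hmem : ∀ s : ℝ, 0 < s → ((s⁻¹ • y) ∈ ann m ↔ s ∈ Icc (r / 2) r) := by
    intro s hs
    have e1 : ∑ i, (s⁻¹ • y) i ^ 2 = r2 / s ^ 2 := by
      simp only [Pi.smul_apply, smul_eq_mul, mul_pow]
      rw [← Finset.mul_sum, ← hr2]
      field_simp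
    unfold ann
    rw [Set.mem_ofPred_eq, e1, one_le_div (by positivity), div_le_iff₀ (by positivity), mem_Icc,
      ← hrsq]
    constructor
    · rintro ⟨h1, h2⟩
      refine ⟨?_, abs_le_of_sq_le_sq' h1 hr0.le |>.2⟩
      have h3 : r ^ 2 ≤ (2 * s) ^ 2 := by nlinarith
      have h4 := abs_le_of_sq_le_sq' h3 (by positivity) |>.2
      linarith
    · rintro ⟨h1, h2⟩
      constructor
      · nlinarith
      · nlinarith
  have h1 : ∫⁻ s in Ioi (0 : ℝ), (ann m).indicator (fun _ => ENNReal.ofReal s⁻¹) (s⁻¹ • y) =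
      ∫⁻ s in Ioi (0 : ℝ), (Icc (r / 2) r).indicator (fun s => ENNReal.ofReal s⁻¹) s := by
    refine setLIntegral_congr_fun measurableSet_Ioi fun s hs => ?_
    by_cases h : s ∈ Icc (r / 2) r
    · rw [indicator_of_mem h, indicator_of_mem ((hmem s hs).2 h)]
    · rw [indicator_of_notMem h, indicator_of_notMem (fun h' => h ((hmem s hs).1 h'))]
  have hsub : Icc (r / 2) r ⊆ Ioi (0 : ℝ) := fun s hs => lt_of_lt_of_le (by positivity) hs.1
  rw [h1, lintegral_indicator measurableSet_Icc, Measure.restrict_restrict measurableSet_Icc,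
    inter_eq_left.2 hsub]
  have hle : r / 2 ≤ r := by linarith
  have hcont : ContinuousOn (fun s : ℝ => s⁻¹) (Icc (r / 2) r) :=
    continuousOn_inv₀.mono fun s hs => (lt_of_lt_of_le (by positivity) hs.1 : (0 : ℝ) < s).ne'
  rw [← ofReal_integral_eq_lintegral_ofReal (hcont.integrableOn_Icc)]
  · congr 1
    rw [integral_Icc_eq_integral_Ioc, ← intervalIntegral.integral_of_le hle,
      integral_inv_of_pos (by positivity) hr0]
    congr 1
    field_simp
  · refine (ae_restrict_iff' measurableSet_Icc).2 (Eventually.of_forall fun s hs => ?_)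
    exact inv_nonneg.2 (le_of_lt (hsub hs))

private theorem ae_snd_ne {m : ℕ} (hm : 1 ≤ m) :
    ∀ᵐ w : ℝ × (Fin m → ℝ), w.2 ≠ 0 := by
  have : Nonempty (Fin m) := ⟨⟨0, hm⟩⟩
  have h1 : (volume : Measure (ℝ × (Fin m → ℝ))) (univ ×ˢ {0}) = 0 := by
    rw [Measure.volume_eq_prod, Measure.prod_prod]
    simp
  rw [ae_iff]
  refine measure_mono_null (fun w hw => ?_) h1
  simp only [ne_eq, not_not, mem_ofPred_eq] at hw
  exact ⟨mem_univ _, hw⟩

/-- the integrand as a function of the point and the radius -/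
private noncomputable def FF {m : ℕ} (A : Set (ℝ × (Fin m → ℝ))) (z : ℝ × (Fin m → ℝ)) (s : ℝ) :
    ℝ≥0∞ := (ann m).indicator 1 z.2 * (A.indicator 1 (s • z) * ENNReal.ofReal (s ^ m))

private theorem measurable_FF {m : ℕ} (A : Set (ℝ × (Fin m → ℝ))) (hA : MeasurableSet A) :
    Measurable fun p : (ℝ × (Fin m → ℝ)) × ℝ => FF A p.1 p.2 := by
  unfold FF
  refine Measurable.mul ?_ (Measurable.mul ?_ (by fun_prop))
  · exact (measurable_one.indicator (measurableSet_ann m)).comp (by fun_prop)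
  · exact (measurable_one.indicator hA).comp (by fun_prop)

theorem radial_volume {m : ℕ} (hm : 1 ≤ m) (A : Set (ℝ × (Fin m → ℝ))) (hA : MeasurableSet A) :
    ENNReal.ofReal (Real.log 2) * volume A =
      ∫⁻ y in {y : Fin m → ℝ | 1 ≤ ∑ i, y i ^ 2 ∧ ∑ i, y i ^ 2 ≤ 4}, ∫⁻ t, radial A (t, y) := by
  symm
  -- write everything as one integral over the product
  have hradmeas : Measurable fun z : ℝ × (Fin m → ℝ) => radial A z := by
    unfold radial
    refine Measurable.lintegral_prod_right' (f := fun p : (ℝ × (Fin m → ℝ)) × ℝ =>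
      A.indicator 1 (p.2 • p.1) * ENNReal.ofReal (p.2 ^ m)) ?_
    exact Measurable.mul ((measurable_one.indicator hA).comp (by fun_prop)) (by fun_prop)
  have h1 : ∫⁻ y in {y : Fin m → ℝ | 1 ≤ ∑ i, y i ^ 2 ∧ ∑ i, y i ^ 2 ≤ 4}, ∫⁻ t, radial A (t, y) =
      ∫⁻ z : ℝ × (Fin m → ℝ), (ann m).indicator 1 z.2 * radial A z := by
    have e1 : Measurable fun z : ℝ × (Fin m → ℝ) => (ann m).indicator 1 z.2 * radial A z :=
      ((measurable_one.indicator (measurableSet_ann m)).comp measurable_snd).mul hradmeas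
    rw [Measure.volume_eq_prod, lintegral_prod_symm' _ e1]
    have e2 : {y : Fin m → ℝ | 1 ≤ ∑ i, y i ^ 2 ∧ ∑ i, y i ^ 2 ≤ 4} = ann m := rfl
    rw [e2, ← lintegral_indicator (measurableSet_ann m)]
    refine lintegral_congr fun y => ?_
    by_cases hy : y ∈ ann m
    · simp [indicator_of_mem hy]
    · simp [indicator_of_notMem hy]
  have h2 : ∀ z : ℝ × (Fin m → ℝ), (ann m).indicator 1 z.2 * radial A z =
      ∫⁻ s in Ioi (0 : ℝ), FF A z s := by
    intro z
    unfold radial FF
    rw [lintegral_const_mul']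
    by_cases hz : z.2 ∈ ann m
    · simp [indicator_of_mem hz]
    · simp [indicator_of_notMem hz]
  rw [h1]
  simp only [h2]
  rw [lintegral_lintegral_swap (measurable_FF A hA).aemeasurable]
  -- scaling
  have h3 : ∀ s ∈ Ioi (0 : ℝ), ∫⁻ z : ℝ × (Fin m → ℝ), FF A z s =
      ∫⁻ w : ℝ × (Fin m → ℝ), A.indicator 1 w *
        (ann m).indicator (fun _ => ENNReal.ofReal s⁻¹) (s⁻¹ • w.2) := by
    intro s hs
    have hs0 : (0 : ℝ) < s := hs
    set H : ℝ × (Fin m → ℝ) → ℝ≥0∞ := fun w => (ann m).indicator 1 (s⁻¹ • w.2) *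
      (A.indicator 1 w * ENNReal.ofReal (s ^ m)) with hH
    have hHm : Measurable H := by
      refine Measurable.mul ?_ (Measurable.mul ?_ measurable_const)
      · exact (measurable_one.indicator (measurableSet_ann m)).comp (by fun_prop)
      · exact measurable_one.indicator hA
    have e1 : ∀ z : ℝ × (Fin m → ℝ), FF A z s = H (s • z) := by
      intro z
      simp only [FF, hH, Prod.smul_snd]
      rw [smul_smul, inv_mul_cancel₀ hs0.ne', one_smul]
    have e2 : ∫⁻ z : ℝ × (Fin m → ℝ), H (s • z) =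
        ENNReal.ofReal |(s ^ (Module.finrank ℝ (ℝ × (Fin m → ℝ))))⁻¹| * ∫⁻ w, H w := by
      have hHaar : (volume : Measure (ℝ × (Fin m → ℝ))).IsAddHaarMeasure := by
        rw [Measure.volume_eq_prod]
        infer_instance
      have := Measure.map_addHaar_smul (volume : Measure (ℝ × (Fin m → ℝ))) hs0.ne'
      rw [← smul_eq_mul, ← lintegral_smul_measure, ← this, lintegral_map hHm (by fun_prop)]
    simp only [e1]
    rw [e2, ← lintegral_const_mul' _ _ ENNReal.ofReal_ne_top]
    refine lintegral_congr fun w => ?_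
    have e3 : Module.finrank ℝ (ℝ × (Fin m → ℝ)) = m + 1 := by
      rw [Module.finrank_prod, Module.finrank_self, Module.finrank_fin_fun, add_comm]
    rw [e3, abs_of_pos (by positivity)]
    by_cases hw : s⁻¹ • w.2 ∈ ann m
    · simp only [hH, indicator_of_mem hw, Pi.one_apply, one_mul]
      rw [mul_comm (A.indicator 1 w), mul_comm (A.indicator 1 w), ← mul_assoc,
        ← ENNReal.ofReal_mul (by positivity)]
      congr 2
      rw [pow_succ]
      field_simp
    · simp only [hH, indicator_of_notMem hw, zero_mul, mul_zero]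
  rw [setLIntegral_congr_fun measurableSet_Ioi h3]
  -- swap back
  have hmeas2 : Measurable fun p : ℝ × (ℝ × (Fin m → ℝ)) =>
        A.indicator (1 : ℝ × (Fin m → ℝ) → ℝ≥0∞) p.2 *
        (ann m).indicator (fun _ => ENNReal.ofReal p.1⁻¹) (p.1⁻¹ • p.2.2) := by
    refine Measurable.mul ((measurable_one.indicator hA).comp measurable_snd) ?_
    have e1 : (fun p : ℝ × (ℝ × (Fin m → ℝ)) =>
        (ann m).indicator (fun _ => ENNReal.ofReal p.1⁻¹) (p.1⁻¹ • p.2.2)) =
        fun p => (ann m).indicator (1 : (Fin m → ℝ) → ℝ≥0∞) (p.1⁻¹ • p.2.2) *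
          ENNReal.ofReal p.1⁻¹ := by
      funext p
      by_cases h : p.1⁻¹ • p.2.2 ∈ ann m
      · simp [indicator_of_mem h]
      · simp [indicator_of_notMem h]
    rw [e1]
    exact ((measurable_one.indicator (measurableSet_ann m)).comp (by fun_prop)).mul (by fun_prop)
  rw [lintegral_lintegral_swap hmeas2.aemeasurable]
  have h4 : ∀ᵐ w : ℝ × (Fin m → ℝ), ∫⁻ s in Ioi (0 : ℝ), A.indicator 1 w *
        (ann m).indicator (fun _ => ENNReal.ofReal s⁻¹) (s⁻¹ • w.2) =
      A.indicator 1 w * ENNReal.ofReal (Real.log 2) := by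
    filter_upwards [ae_snd_ne hm] with w hw
    rw [lintegral_const_mul', inner_log w.2 hw]
    by_cases h : w ∈ A
    · simp [indicator_of_mem h]
    · simp [indicator_of_notMem h]
  rw [lintegral_congr_ae h4, lintegral_mul_const' _ _ ENNReal.ofReal_ne_top,
    lintegral_indicator_one hA, mul_comm]

end Pool.Agent.Sausage
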