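import Pool.Agent.Lib.MP_dcaa2d_sau.G3

/-!
# Row G3b: the comparison in coordinates
-/

set_option autoImplicit false

open MeasureTheory Metric Set Filter Topology
open scoped Pointwise ENNReal NNReal

namespace Pool.Agent.Sausage

private theorem meas_ip {m : ℕ} (v : ℝ × (Fin m → ℝ)) :
    Measurable fun z : ℝ × (Fin m → ℝ) => ip z v := by
  unfold ip
  fun_prop

private theorem meas_nsq (m : ℕ) : Measurable fun z : ℝ × (Fin m → ℝ) => nsq z := by
  unfold nsq
  fun_prop

private theorem measurableSet_cA {m : ℕ} (V : Finset (ℝ × (Fin m → ℝ))) :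
    MeasurableSet (cA V) := by
  have h : cA V = {z | nsq z ≤ 4} ∩ ⋂ v ∈ V, {z | ip z v ≤ nsq v / 2} := by
    ext z
    simp [cA]
  rw [h]
  refine (measurableSet_le (meas_nsq m) measurable_const).inter ?_
  exact Finset.measurableSet_biInter _ fun v _ => measurableSet_le (meas_ip v) measurable_const

private theorem measurableSet_cB {m : ℕ} (V : Finset (ℝ × (Fin m → ℝ))) (ρ : ℝ) :
    MeasurableSet (cB V ρ) := by
  have h : cB V ρ = (⋂ v ∈ V, {z | ip z v < nsq v / 2}) ∩
      ({z | nsq z ≤ ρ ^ 2} ∪ ⋃ v ∈ V, ({z | 0 ≤ ip z v} ∩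
        {z | nsq z - (ip z v) ^ 2 / nsq v ≤ ρ ^ 2})) := by
    ext z
    simp only [cB, mem_ofPred_eq, mem_inter_iff, mem_iInter, mem_union, mem_iUnion, exists_prop]
  rw [h]
  refine (Finset.measurableSet_biInter _ fun v _ =>
    measurableSet_lt (meas_ip v) measurable_const).inter ?_
  refine (measurableSet_le (meas_nsq m) measurable_const).union ?_
  refine Finset.measurableSet_biUnion _ fun v _ => ?_
  refine (measurableSet_le measurable_const (meas_ip v)).inter ?_
  exact measurableSet_le ((meas_nsq m).sub (((meas_ip v).pow_const 2).div_const _))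
    measurable_const

theorem coordLe_of_fibre {m : ℕ} (hm : 1 ≤ m) {ρ : ℝ} (h : ∀ V : Finset (ℝ × (Fin m → ℝ)),
    (∀ v ∈ V, 4 ≤ nsq v) → (∃ D : ℝ, 2 ≤ D ∧ ((D, 0) : ℝ × (Fin m → ℝ)) ∈ V) →
    ∀ y : Fin m → ℝ, 0 < ∑ i, y i ^ 2 →
      ∫⁻ t, radial (cA V) (t, y) ≤ ∫⁻ t, radial (cB V ρ) (t, y)) : CoordLe m ρ := by
  intro V hV hD
  have h1 := radial_volume hm (cA V) (measurableSet_cA V)
  have h2 := radial_volume hm (cB V ρ) (measurableSet_cB V ρ)
  have h3 : ENNReal.ofReal (Real.log 2) * volume (cA V) ≤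
      ENNReal.ofReal (Real.log 2) * volume (cB V ρ) := by
    rw [h1, h2]
    have hmeas : Measurable fun y : Fin m → ℝ => ∑ i, y i ^ 2 := by fun_prop
    refine setLIntegral_mono' ((measurableSet_le measurable_const hmeas).inter
      (measurableSet_le hmeas measurable_const)) fun y hy => ?_
    exact h V hV hD y (lt_of_lt_of_le one_pos hy.1)
  have hlog : ENNReal.ofReal (Real.log 2) ≠ 0 := by
    rw [ne_eq, ENNReal.ofReal_eq_zero, not_le]
    exact Real.log_pos (by norm_num)
  exact (ENNReal.mul_le_mul_iff_right hlog ENNReal.ofReal_ne_top).1 h3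

end Pool.Agent.Sausage
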