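import Pool.Agent.Lib.MP_dcaa2d_sau.A0

/-!
# The comparison on the fibres
-/

set_option autoImplicit false

open MeasureTheory Metric Set Filter Topology
open scoped Pointwise ENNReal NNReal

namespace Pool.Agent.Sausage

namespace G4

variable {m : ℕ}

theorem ip_smul (s : ℝ) (z v : ℝ × (Fin m → ℝ)) : ip (s • z) v = s * ip z v := by
  simp only [ip, Prod.smul_fst, Prod.smul_snd, smul_eq_mul, Pi.smul_apply, mul_add,
    Finset.mul_sum]
  congr 1
  · ring
  · exact Finset.sum_congr rfl fun i _ => by ring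

theorem ip_sub (z w v : ℝ × (Fin m → ℝ)) : ip (z - w) v = ip z v - ip w v := by
  simp only [ip, Prod.fst_sub, Prod.snd_sub, Pi.sub_apply, sub_mul, Finset.sum_sub_distrib]
  ring

theorem nsq_smul (s : ℝ) (z : ℝ × (Fin m → ℝ)) : nsq (s • z) = s ^ 2 * nsq z := by
  simp only [nsq, Prod.smul_fst, Prod.smul_snd, smul_eq_mul, Pi.smul_apply, mul_add,
    Finset.mul_sum]
  congr 1
  · ring
  · exact Finset.sum_congr rfl fun i _ => by ring

theorem nsq_nonneg (z : ℝ × (Fin m → ℝ)) : 0 ≤ nsq z :=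
  add_nonneg (sq_nonneg _) (Finset.sum_nonneg fun _ _ => sq_nonneg _)

/-- Cauchy-Schwarz -/
theorem ip_sq_le (z v : ℝ × (Fin m → ℝ)) : ip z v ^ 2 ≤ nsq z * nsq v := by
  have h := Finset.sum_mul_sq_le_sq_mul_sq (Finset.univ : Finset (Fin (m + 1)))
    (Fin.cons z.1 z.2 : Fin (m + 1) → ℝ) (Fin.cons v.1 v.2)
  simp only [Fin.sum_univ_succ, Fin.cons_zero, Fin.cons_succ] at h
  exact h

theorem ip_div_le (z v : ℝ × (Fin m → ℝ)) : ip z v / Real.sqrt (nsq v) ≤ Real.sqrt (nsq z) := by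
  rcases (nsq_nonneg v).eq_or_lt with h | h
  · rw [← h, Real.sqrt_zero, div_zero]
    exact Real.sqrt_nonneg _
  · rw [div_le_iff₀ (Real.sqrt_pos.2 h), ← Real.sqrt_mul (nsq_nonneg z)]
    exact Real.le_sqrt_of_sq_le (ip_sq_le z v)

/-- the maximum of the normalised inner products -/
noncomputable def Psi (V : Finset (ℝ × (Fin m → ℝ))) (hV : V.Nonempty) (z : ℝ × (Fin m → ℝ)) : ℝ :=
  V.sup' hV fun v => ip z v / Real.sqrt (nsq v)

variable {V : Finset (ℝ × (Fin m → ℝ))} (hV : V.Nonempty)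

theorem le_Psi {v : ℝ × (Fin m → ℝ)} (hv : v ∈ V) (z : ℝ × (Fin m → ℝ)) :
    ip z v / Real.sqrt (nsq v) ≤ Psi V hV z :=
  Finset.le_sup' (fun v => ip z v / Real.sqrt (nsq v)) hv

theorem exists_Psi (z : ℝ × (Fin m → ℝ)) : ∃ v ∈ V, Psi V hV z = ip z v / Real.sqrt (nsq v) :=
  Finset.exists_mem_eq_sup' hV _

theorem Psi_le_add (z w : ℝ × (Fin m → ℝ)) :
    Psi V hV z ≤ Psi V hV w + Real.sqrt (nsq (z - w)) := by
  refine Finset.sup'_le hV _ fun v hv => ?_
  have h1 := le_Psi hV hv w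
  have h2 := ip_div_le (z - w) v
  rw [ip_sub, sub_div] at h2
  linarith

theorem nsq_sub_comm (z w : ℝ × (Fin m → ℝ)) : nsq (z - w) = nsq (w - z) := by
  have : z - w = (-1 : ℝ) • (w - z) := by simp
  rw [this, nsq_smul]
  norm_num

theorem abs_Psi_sub_le (z w : ℝ × (Fin m → ℝ)) :
    |Psi V hV z - Psi V hV w| ≤ Real.sqrt (nsq (z - w)) := by
  have h1 := Psi_le_add hV z w
  have h2 := Psi_le_add hV w z
  rw [nsq_sub_comm w z] at h2
  exact abs_le.2 ⟨by linarith, by linarith⟩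

theorem Psi_smul {s : ℝ} (hs : 0 < s) (z : ℝ × (Fin m → ℝ)) :
    Psi V hV (s • z) = s * Psi V hV z := by
  apply le_antisymm
  · refine Finset.sup'_le hV _ fun v hv => ?_
    rw [ip_smul, mul_div_assoc]
    exact mul_le_mul_of_nonneg_left (le_Psi hV hv z) hs.le
  · obtain ⟨v, hv, h⟩ := exists_Psi hV z
    rw [h, ← mul_div_assoc, ← ip_smul]
    exact le_Psi hV hv _

theorem fst_le_Psi {D : ℝ} (hD : 2 ≤ D) (hv : ((D, 0) : ℝ × (Fin m → ℝ)) ∈ V)
    (z : ℝ × (Fin m → ℝ)) : z.1 ≤ Psi V hV z := by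
  refine le_trans (le_of_eq ?_) (le_Psi hV hv z)
  have h1 : Real.sqrt (nsq ((D, 0) : ℝ × (Fin m → ℝ))) = D := by
    simp only [nsq, Pi.zero_apply]
    rw [show ∑ i : Fin m, (0 : ℝ) ^ 2 = 0 by simp, add_zero, Real.sqrt_sq (by linarith)]
  have h2 : ip z ((D, 0) : ℝ × (Fin m → ℝ)) = z.1 * D := by
    simp [ip]
  rw [h1, h2, mul_div_assoc, div_self (by linarith), mul_one]

theorem nsq_mk {b : ℝ} {y : Fin m → ℝ} (hb : b ^ 2 = ∑ i, y i ^ 2) (t : ℝ) :
    nsq (t, y) = rad b t ^ 2 := by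
  rw [rad_sq, hb, nsq, add_comm]

theorem isProf {D : ℝ} (hD : 2 ≤ D) (hv : ((D, 0) : ℝ × (Fin m → ℝ)) ∈ V) {b : ℝ} (hb : 0 < b)
    {y : Fin m → ℝ} (hby : b ^ 2 = ∑ i, y i ^ 2) : IsProf b fun t => Psi V hV (t, y) := by
  refine ⟨fun u v => ?_, fun u => fst_le_Psi hV hD hv (u, y), fun u v => ?_⟩
  · refine (abs_Psi_sub_le hV _ _).trans (le_of_eq ?_)
    have : nsq ((u, y) - (v, y)) = (u - v) ^ 2 := by
      simp [nsq]
    rw [this, Real.sqrt_sq_eq_abs]
  · have hu := rad_pos hb u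
    have hv' := rad_pos hb v
    have e : ∀ t, Psi V hV (t, y) / rad b t = Psi V hV ((rad b t)⁻¹ • (t, y)) := by
      intro t
      rw [Psi_smul hV (inv_pos.2 (rad_pos hb t)), div_eq_inv_mul]
    have e2 : ∀ t, Real.sqrt (1 + (t / b) ^ 2) = rad b t / b := by
      intro t
      rw [rad, Real.sqrt_eq_iff_mul_self_eq (by positivity) (by positivity), div_mul_div_comm,
        Real.mul_self_sqrt (by positivity)]
      field_simp
    have e3 : ∀ t, Real.sin (Real.arctan (t / b)) = (rad b t)⁻¹ * t := by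
      intro t
      have := rad_pos hb t
      rw [Real.sin_arctan, e2]
      field_simp
    have e4 : ∀ t, Real.cos (Real.arctan (t / b)) = (rad b t)⁻¹ * b := by
      intro t
      have := rad_pos hb t
      rw [Real.cos_arctan, e2]
      field_simp
    rw [e, e]
    refine (abs_Psi_sub_le hV _ _).trans ?_
    refine Real.sqrt_le_iff.2 ⟨abs_nonneg _, ?_⟩
    rw [sq_abs]
    set α := Real.arctan (u / b)
    set β := Real.arctan (v / b)
    have h1 : nsq ((rad b u)⁻¹ • (u, y) - (rad b v)⁻¹ • (v, y)) =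
        (Real.sin α - Real.sin β) ^ 2 + (Real.cos α - Real.cos β) ^ 2 := by
      rw [e3, e3, e4, e4]
      simp only [nsq, Prod.fst_sub, Prod.snd_sub, Prod.smul_fst, Prod.smul_snd, smul_eq_mul,
        Pi.sub_apply, Pi.smul_apply]
      congr 1
      have : ∀ i, ((rad b u)⁻¹ * y i - (rad b v)⁻¹ * y i) ^ 2 =
          ((rad b u)⁻¹ - (rad b v)⁻¹) ^ 2 * y i ^ 2 := fun i => by ring
      rw [Finset.sum_congr rfl fun i _ => this i, ← Finset.mul_sum, ← hby]
      ring
    have h2 := Real.one_sub_sq_div_two_le_cos (x := α - β)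
    rw [Real.cos_sub] at h2
    have h3 := Real.sin_sq_add_cos_sq α
    have h4 := Real.sin_sq_add_cos_sq β
    rw [h1]
    nlinarith

/-- the integral of a power -/
theorem lintegral_pow {c : ℝ} (hc : 0 ≤ c) :
    ∫⁻ s in Ioc (0 : ℝ) c, ENNReal.ofReal (s ^ m) = ENNReal.ofReal (c ^ (m + 1) / (m + 1)) := by
  have hint : IntegrableOn (fun s : ℝ => s ^ m) (Ioc 0 c) :=
    ((continuous_pow m).integrableOn_Icc (a := 0) (b := c)).mono_set Ioc_subset_Icc_self
  rw [← ofReal_integral_eq_lintegral_ofReal hint, ← intervalIntegral.integral_of_le hc,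
    integral_pow, zero_pow (Nat.succ_ne_zero m), sub_zero]
  exact (ae_restrict_iff' measurableSet_Ioc).2 (Eventually.of_forall fun s hs => by
    have := hs.1
    simp only [Pi.zero_apply]
    positivity)

variable {ρ b : ℝ} {y : Fin m → ℝ}

theorem radial_cA_le (hb : 0 < b) (hby : b ^ 2 = ∑ i, y i ^ 2) (t : ℝ) :
    radial (cA V) (t, y) ≤ ENNReal.ofReal ((2 * (rad b t)⁻¹) ^ (m + 1) / (m + 1)) := by
  have hr := rad_pos hb t
  rw [← lintegral_pow (by positivity), ← lintegral_indicator measurableSet_Ioc, radial,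
    ← lintegral_indicator measurableSet_Ioi]
  refine lintegral_mono fun s => ?_
  by_cases hs : s ∈ Ioi (0 : ℝ)
  swap
  · rw [indicator_of_notMem hs]
    exact zero_le
  rw [indicator_of_mem hs]
  by_cases h : s • (t, y) ∈ cA V
  · rw [indicator_of_mem h, Pi.one_apply, one_mul]
    have h1 : s ∈ Ioc (0 : ℝ) (2 * (rad b t)⁻¹) := by
      refine ⟨hs, ?_⟩
      have h2 := h.1
      rw [nsq_smul, nsq_mk hby] at h2
      have h3 : s * rad b t ≤ 2 := abs_le_of_sq_le_sq' (by nlinarith) (by norm_num) |>.2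
      rw [← div_eq_mul_inv, le_div_iff₀ hr]
      exact h3
    rw [indicator_of_mem h1]
  · rw [indicator_of_notMem h, zero_mul]
    exact zero_le

theorem le_radial_cB (hVn : ∀ v ∈ V, 4 ≤ nsq v) (hb : 0 < b) (hby : b ^ 2 = ∑ i, y i ^ 2)
    (hρ0 : 0 < ρ) (hρ2 : ρ ≤ 2) {t : ℝ} (ht : t ∈ low (fun t => Psi V hV (t, y)) b) :
    ENNReal.ofReal ((ρ * (hgt (fun t => Psi V hV (t, y)) b t)⁻¹) ^ (m + 1) / (m + 1)) ≤
      radial (cB V ρ) (t, y) := by
  set ψ : ℝ → ℝ := fun t => Psi V hV (t, y) with hψ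
  have hh := hgt_pos hb ht
  have hr := rad_pos hb t
  have hsq := hgt_sq ht
  have hlow : max (ψ t) 0 ≤ 11 / 25 * rad b t := ht
  have hp0 : 0 ≤ max (ψ t) 0 := le_max_right _ _
  set p := max (ψ t) 0 with hp
  have hph : p ≤ hgt ψ b t / 2 := by
    refine abs_le_of_sq_le_sq' ?_ (by positivity) |>.2
    nlinarith
  rw [← lintegral_pow (by positivity), setLIntegral_congr Ioo_ae_eq_Ioc.symm,
    ← lintegral_indicator measurableSet_Ioo, radial, ← lintegral_indicator measurableSet_Ioi]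
  refine lintegral_mono fun s => ?_
  by_cases hs : s ∈ Ioo (0 : ℝ) (ρ * (hgt ψ b t)⁻¹)
  swap
  · rw [indicator_of_notMem hs]
    exact zero_le
  have hs0 : 0 < s := hs.1
  rw [indicator_of_mem hs, indicator_of_mem (show s ∈ Ioi (0 : ℝ) from hs0)]
  have hs1 : s * hgt ψ b t < ρ := by
    have := hs.2
    rw [← div_eq_mul_inv, lt_div_iff₀ hh] at this
    exact this
  have hsp : s * p < 1 := by nlinarith
  have hmem : s • (t, y) ∈ cB V ρ := by
    refine ⟨fun v hv => ?_, ?_⟩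
    · have h4 := hVn v hv
      have hw : 2 ≤ Real.sqrt (nsq v) := Real.le_sqrt_of_sq_le (by norm_num; exact h4)
      have hw2 : Real.sqrt (nsq v) ^ 2 = nsq v := Real.sq_sqrt (by linarith)
      have h5 : ip (t, y) v ≤ p * Real.sqrt (nsq v) := by
        have := (le_Psi hV hv (t, y)).trans (le_max_left _ 0)
        rw [div_le_iff₀ (by linarith)] at this
        exact this
      rw [ip_smul, ← hw2]
      have h6 : s * ip (t, y) v ≤ s * (p * Real.sqrt (nsq v)) :=
        mul_le_mul_of_nonneg_left h5 hs0.le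
      have h7 : s * p * Real.sqrt (nsq v) < 1 * Real.sqrt (nsq v) :=
        mul_lt_mul_of_pos_right hsp (by linarith)
      nlinarith
    · have h8 : (s * hgt ψ b t) ^ 2 ≤ ρ ^ 2 :=
        pow_le_pow_left₀ (by positivity) hs1.le 2
      rcases le_or_gt (ψ t) 0 with h | h
      · left
        have h9 : p = 0 := max_eq_right h
        rw [h9] at hsq
        rw [nsq_smul, nsq_mk hby]
        nlinarith
      · right
        have h9 : p = ψ t := max_eq_left h.le
        obtain ⟨v, hv, hvm⟩ := exists_Psi hV (t, y)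
        have h4 := hVn v hv
        have hw : 0 < Real.sqrt (nsq v) := Real.sqrt_pos.2 (by linarith)
        have hw2 : Real.sqrt (nsq v) ^ 2 = nsq v := Real.sq_sqrt (by linarith)
        have h10 : ip (t, y) v = ψ t * Real.sqrt (nsq v) := by
          have : ψ t = ip (t, y) v / Real.sqrt (nsq v) := hvm
          rw [this, div_mul_cancel₀ _ hw.ne']
        refine ⟨v, hv, ?_, ?_⟩
        · rw [ip_smul, h10]
          positivity
        · have h11 : (s * (ψ t * Real.sqrt (nsq v))) ^ 2 / nsq v = s ^ 2 * ψ t ^ 2 := by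
            rw [mul_pow, mul_pow, hw2]
            field_simp
          rw [ip_smul, nsq_smul, nsq_mk hby, h10, h11]
          rw [h9] at hsq
          nlinarith
  rw [indicator_of_mem hmem, Pi.one_apply, one_mul]

theorem radial_le_of_notMem (hVn : ∀ v ∈ V, 4 ≤ nsq v) (hby : b ^ 2 = ∑ i, y i ^ 2)
    (hρ : 99 / 100 ≤ (ρ / 2) ^ 2) {t : ℝ} (ht : t ∉ low (fun t => Psi V hV (t, y)) b) :
    radial (cA V) (t, y) ≤ radial (cB V ρ) (t, y) := by
  have ht' : 11 / 25 * rad b t < max (Psi V hV (t, y)) 0 := not_le.1 ht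
  have hr := rad_nonneg b t
  have hpos : 0 < Psi V hV (t, y) := by
    rcases lt_max_iff.1 (lt_of_le_of_lt (by positivity : (0 : ℝ) ≤ 11 / 25 * rad b t) ht') with h | h
    · exact h
    · exact absurd h (lt_irrefl _)
  rw [max_eq_left hpos.le] at ht'
  obtain ⟨v, hv, hvm⟩ := exists_Psi hV (t, y)
  have hnull : volume ((V.image fun v => nsq v / 2 / ip (t, y) v : Finset ℝ) : Set ℝ) = 0 :=
    (Finset.finite_toSet _).measure_zero _
  have hae : ∀ᵐ s ∂(volume.restrict (Ioi (0 : ℝ))),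
      s ∉ ((V.image fun v => nsq v / 2 / ip (t, y) v : Finset ℝ) : Set ℝ) :=
    ae_restrict_of_ae (compl_mem_ae_iff.2 hnull)
  refine lintegral_mono_ae ?_
  filter_upwards [hae, ae_restrict_mem measurableSet_Ioi] with s hs hs0
  have hs0' : 0 < s := hs0
  by_cases h : s • (t, y) ∈ cA V
  swap
  · rw [indicator_of_notMem h, zero_mul]
    exact zero_le
  have hmem : s • (t, y) ∈ cB V ρ := by
    refine ⟨fun w hw => ?_, Or.inr ⟨v, hv, ?_, ?_⟩⟩
    · refine lt_of_le_of_ne (h.2 w hw) fun heq => hs ?_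
      rw [Finset.mem_coe, Finset.mem_image]
      refine ⟨w, hw, ?_⟩
      rw [ip_smul] at heq
      have h4 := hVn w hw
      have h5 : ip (t, y) w ≠ 0 := by
        intro h0
        rw [h0, mul_zero] at heq
        linarith
      rw [← heq, mul_div_assoc, div_self h5, mul_one]
    · have h4 := hVn v hv
      have hw : 0 < Real.sqrt (nsq v) := Real.sqrt_pos.2 (by linarith)
      have h10 : ip (t, y) v = Psi V hV (t, y) * Real.sqrt (nsq v) := by
        rw [hvm, div_mul_cancel₀ _ hw.ne']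
      rw [ip_smul, h10]
      positivity
    · have h4 := hVn v hv
      have hw : 0 < Real.sqrt (nsq v) := Real.sqrt_pos.2 (by linarith)
      have hw2 : Real.sqrt (nsq v) ^ 2 = nsq v := Real.sq_sqrt (by linarith)
      have h10 : ip (t, y) v = Psi V hV (t, y) * Real.sqrt (nsq v) := by
        rw [hvm, div_mul_cancel₀ _ hw.ne']
      have h11 : (s * (Psi V hV (t, y) * Real.sqrt (nsq v))) ^ 2 / nsq v =
          s ^ 2 * Psi V hV (t, y) ^ 2 := by
        rw [mul_pow, mul_pow, hw2]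
        field_simp
      have h12 := h.1
      rw [nsq_smul, nsq_mk hby] at h12
      rw [ip_smul, nsq_smul, nsq_mk hby, h10, h11]
      have h13 : (11 / 25 * rad b t) ^ 2 ≤ Psi V hV (t, y) ^ 2 :=
        pow_le_pow_left₀ (by positivity) ht'.le 2
      nlinarith [sq_nonneg s, mul_le_mul_of_nonneg_left h13 (sq_nonneg s)]
  rw [indicator_of_mem h, indicator_of_mem hmem]

end G4

open G4

theorem fibre_le {m : ℕ} (hm : 1 ≤ m) {ρ : ℝ} (hρ0 : 0 < ρ) (hρ2 : ρ ≤ 2)
    (hρ : 99 / 100 ≤ (ρ / 2) ^ 2) (h : OneD (m + 1) ((ρ / 2) ^ (m + 1)))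
    (V : Finset (ℝ × (Fin m → ℝ))) (hV : ∀ v ∈ V, 4 ≤ nsq v)
    (hD : ∃ D : ℝ, 2 ≤ D ∧ ((D, 0) : ℝ × (Fin m → ℝ)) ∈ V) (y : Fin m → ℝ)
    (hy : 0 < ∑ i, y i ^ 2) :
    ∫⁻ t, radial (cA V) (t, y) ≤ ∫⁻ t, radial (cB V ρ) (t, y) := by
  obtain ⟨D, hD2, hDV⟩ := hD
  have hne : V.Nonempty := ⟨_, hDV⟩
  set b : ℝ := Real.sqrt (∑ i, y i ^ 2) with hb
  have hb0 : 0 < b := Real.sqrt_pos.2 hy
  have hby : b ^ 2 = ∑ i, y i ^ 2 := Real.sq_sqrt hy.le
  set ψ : ℝ → ℝ := fun t => Psi V hne (t, y) with hψ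
  have hprof : IsProf b ψ := isProf hne hD2 hDV hb0 hby
  have hc := hprof.continuous
  have hmeas := measurableSet_low hc b
  have hd : 2 ≤ m + 1 := by omega
  rw [← lintegral_add_compl _ hmeas, ← lintegral_add_compl (fun t => radial (cB V ρ) (t, y)) hmeas]
  refine add_le_add ?_ ?_
  · have h1 := h ψ b hb0 hprof
    have hi1 : IntegrableOn (fun t => (2 * (rad b t)⁻¹) ^ (m + 1) / (m + 1)) (low ψ b) := by
      have := ((integrable_rad hb0 hd).const_mul (2 ^ (m + 1) / (m + 1))).integrableOn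
        (s := low ψ b)
      refine this.congr (Eventually.of_forall fun t => ?_)
      simp only [mul_pow]
      ring
    have hi2 : IntegrableOn (fun t => (ρ * (hgt ψ b t)⁻¹) ^ (m + 1) / (m + 1)) (low ψ b) := by
      have := (integrableOn_hgt hc hb0 hd).const_mul (ρ ^ (m + 1) / (m + 1))
      refine this.congr (Eventually.of_forall fun t => ?_)
      simp only [mul_pow]
      ring
    calc ∫⁻ t in low ψ b, radial (cA V) (t, y)
        ≤ ∫⁻ t in low ψ b, ENNReal.ofReal ((2 * (rad b t)⁻¹) ^ (m + 1) / (m + 1)) :=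
          lintegral_mono fun t => radial_cA_le hb0 hby t
      _ = ENNReal.ofReal (∫ t in low ψ b, (2 * (rad b t)⁻¹) ^ (m + 1) / (m + 1)) := by
          refine (ofReal_integral_eq_lintegral_ofReal hi1 (Eventually.of_forall fun t => ?_)).symm
          have := rad_pos hb0 t
          simp only [Pi.zero_apply]
          positivity
      _ ≤ ENNReal.ofReal (∫ t in low ψ b, (ρ * (hgt ψ b t)⁻¹) ^ (m + 1) / (m + 1)) := by
          refine ENNReal.ofReal_le_ofReal ?_
          have e1 : ∀ t, (2 * (rad b t)⁻¹) ^ (m + 1) / (m + 1) =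
              2 ^ (m + 1) / (m + 1) * ((rad b t)⁻¹) ^ (m + 1) := fun t => by
            rw [mul_pow]
            ring
          have e2 : ∀ t, (ρ * (hgt ψ b t)⁻¹) ^ (m + 1) / (m + 1) =
              2 ^ (m + 1) / (m + 1) * ((ρ / 2) ^ (m + 1) * ((hgt ψ b t)⁻¹) ^ (m + 1)) := fun t => by
            rw [mul_pow, div_pow]
            field_simp
          simp only [e1, e2]
          rw [integral_const_mul, integral_const_mul, integral_const_mul]
          exact mul_le_mul_of_nonneg_left h1 (by positivity)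
      _ = ∫⁻ t in low ψ b, ENNReal.ofReal ((ρ * (hgt ψ b t)⁻¹) ^ (m + 1) / (m + 1)) := by
          refine ofReal_integral_eq_lintegral_ofReal hi2 (Eventually.of_forall fun t => ?_)
          have := hgt_nonneg ψ b t
          simp only [Pi.zero_apply]
          positivity
      _ ≤ ∫⁻ t in low ψ b, radial (cB V ρ) (t, y) := by
          refine lintegral_mono_ae ?_
          filter_upwards [ae_restrict_mem hmeas] with t ht
          exact le_radial_cB hne hV hb0 hby hρ0 hρ2 ht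
  · refine lintegral_mono_ae ?_
    filter_upwards [ae_restrict_mem hmeas.compl] with t ht
    exact radial_le_of_notMem hne hV hby hρ ht

end Pool.Agent.Sausage
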