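import Pool.Agent.Lib.MP_dcaa2d_sau.A1
import Pool.Agent.Lib.MP_dcaa2d_sau.A2
import Pool.Agent.Lib.MP_dcaa2d_sau.A3
import Pool.Agent.Lib.MP_dcaa2d_sau.A4
import Pool.Agent.Lib.MP_dcaa2d_sau.A5
import Pool.Agent.Lib.MP_dcaa2d_sau.G1
import Pool.Agent.Lib.MP_dcaa2d_sau.G2
import Pool.Agent.Lib.MP_dcaa2d_sau.G3b
import Pool.Agent.Lib.MP_dcaa2d_sau.G4
import Pool.Agent.Lib.MP_dcaa2d_sau.D2
import Pool.Agent.Lib.MP_dcaa2d_sau.D3
import Pool.Agent.Lib.MP_dcaa2d_sau.D4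

/-!
# Assembly
-/

set_option autoImplicit false

open MeasureTheory Metric Set Filter Topology
open scoped Pointwise ENNReal NNReal

namespace Pool.Agent.Sausage

theorem packLe_of_num {d : ℕ} (hd : 2 ≤ d) {q : ℝ} (hq : Num d q) {ρ : ℝ} (hρ : 0 < ρ)
    (h : (ρ / 2) ^ d = q) : PackLe d ρ := by
  obtain ⟨m, rfl⟩ : ∃ m, d = m + 1 := ⟨d - 1, by omega⟩
  have hm : 1 ≤ m := by omega
  have hρ2 : ρ ≤ 2 := by
    have h1 : (ρ / 2) ^ (m + 1) ≤ 1 := by
      rw [h]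
      exact hq.le_one
    have h2 := (pow_le_one_iff_of_nonneg (by positivity) (Nat.succ_ne_zero m)).1 h1
    linarith
  have h99 : 99 / 100 ≤ (ρ / 2) ^ 2 := by
    have h1 : Real.sqrt (99 / 100) ^ (m + 1) ≤ (ρ / 2) ^ (m + 1) := by
      rw [h]
      exact hq.n0
    have h2 : Real.sqrt (99 / 100) ≤ ρ / 2 :=
      (pow_le_pow_iff_left₀ (Real.sqrt_nonneg _) (by positivity) (Nat.succ_ne_zero m)).1 h1
    calc (99 / 100 : ℝ) = Real.sqrt (99 / 100) ^ 2 := (Real.sq_sqrt (by norm_num)).symm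
      _ ≤ (ρ / 2) ^ 2 := pow_le_pow_left₀ (Real.sqrt_nonneg _) h2 2
  have hunit : UnitD (m + 1) q := by
    intro ψ hψ
    rcases le_or_gt (ψ 0) (21 / 100) with h0 | h0
    · exact unitD_case1 hd hq hψ h0
    · exact unitD_case2 hd hq hψ h0
  have hone : OneD (m + 1) ((ρ / 2) ^ (m + 1)) := by
    rw [h]
    exact oneD_of_unitD hunit
  exact packLe_of_cellLe hρ.le (cellLe_of_coordLe hρ.le (coordLe_of_fibre hm fun V hV hD y hy =>
    fibre_le hm hρ hρ2 h99 hone V hV hD y hy))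

theorem kappa_pos (d : ℕ) : 0 < kappa d := by
  refine ENNReal.toReal_pos ?_ ?_
  · exact (measure_closedBall_pos volume _ one_pos).ne'
  · exact (isCompact_closedBall (0 : E d) 1).measure_lt_top.ne

theorem maxDensity_pos {d : ℕ} (hd : 1 ≤ d) : 0 < maxDensity d := by
  rw [maxDensity_eq hd]
  exact mul_pos (kappa_pos d) (cubeDens_pos hd)

theorem parBody_ne_top {d : ℕ} (X : Finset (E d)) (ρ : ℝ) :
    volume (convexHull ℝ (X : Set (E d)) + closedBall (0 : E d) ρ) ≠ ∞ := by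
  have h : IsCompact (convexHull ℝ (X : Set (E d))) := X.finite_toSet.isCompact_convexHull (𝕜 := ℝ)
  exact (h.add (isCompact_closedBall 0 ρ)).measure_lt_top.ne

/-- the volume of the parallel body of a finite packing -/
theorem card_le_of_packLe {d : ℕ} (hd : 1 ≤ d) {ρ₀ ρ : ℝ} (h : PackLe d ρ₀) (hρ : ρ₀ ≤ ρ)
    {X : Finset (E d)} (hX : IsPacking (X : Set (E d))) (h2 : 2 ≤ X.card) :
    (X.card : ℝ) ≤ cubeDens d * parVol (X : Set (E d)) ρ := by
  refine (replacement hd hX).trans (mul_le_mul_of_nonneg_left ?_ (cubeDens_pos hd).le)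
  refine ENNReal.toReal_mono (parBody_ne_top X ρ) ((h X hX h2).trans (measure_mono ?_))
  exact add_subset_add_left (closedBall_subset_closedBall hρ)

theorem exists_packing {d : ℕ} (hd : 1 ≤ d) (n : ℕ) :
    ∃ X : Finset (E d), IsPacking (X : Set (E d)) ∧ X.card = n := by
  classical
  set i0 : Fin d := ⟨0, hd⟩
  set f : ℕ → E d := fun k => EuclideanSpace.single i0 (2 * (k : ℝ)) with hf
  have hdist : ∀ k l : ℕ, k ≠ l → 2 ≤ dist (f k) (f l) := by
    intro k l hkl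
    rw [hf, PiLp.dist_single_same, Real.dist_eq, ← mul_sub, abs_mul, abs_two]
    have h1 : (1 : ℝ) ≤ |(k : ℝ) - l| := by
      have h2 : (1 : ℤ) ≤ |(k : ℤ) - l| := Int.one_le_abs (sub_ne_zero.2 (by exact_mod_cast hkl))
      exact_mod_cast h2
    linarith
  have hinj : Function.Injective f := by
    intro k l h
    by_contra hkl
    have h1 := hdist k l hkl
    rw [h, dist_self] at h1
    norm_num at h1
  refine ⟨(Finset.range n).image f, ?_, ?_⟩
  · intro x hx y hy hxy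
    rw [Finset.coe_image] at hx hy
    obtain ⟨k, -, rfl⟩ := hx
    obtain ⟨l, -, rfl⟩ := hy
    exact hdist k l fun h => hxy (by rw [h])
  · rw [Finset.card_image_of_injective _ hinj, Finset.card_range]

theorem le_deltaN {d : ℕ} (hd : 1 ≤ d) {ρ₀ ρ : ℝ} (h : PackLe d ρ₀) (hρ : ρ₀ ≤ ρ) {n : ℕ}
    (hn : 2 ≤ n) : 1 / cubeDens d ≤ deltaN d ρ n := by
  have hD := cubeDens_pos hd
  have hn0 : (0 : ℝ) < n := by
    exact_mod_cast (by omega : 0 < n)
  refine le_csInf ?_ ?_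
  · obtain ⟨X, hX, hc⟩ := exists_packing hd n
    exact ⟨_, X, hX, hc, rfl⟩
  · rintro v ⟨X, hX, hc, rfl⟩
    have h1 := card_le_of_packLe hd h hρ hX (by omega)
    rw [hc] at h1
    rw [div_le_div_iff₀ hD hn0]
    linarith

theorem kappa_div_maxDensity {d : ℕ} (hd : 1 ≤ d) : kappa d / maxDensity d = 1 / cubeDens d := by
  have h1 := kappa_pos d
  have h2 := cubeDens_pos hd
  rw [maxDensity_eq hd]
  field_simp

theorem tendsto_deltaN {d : ℕ} (hd : 2 ≤ d) {ρ₀ ρ : ℝ} (hρ₀ : 0 < ρ₀) (h : PackLe d ρ₀)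
    (hρ : ρ₀ ≤ ρ) : Tendsto (deltaN d ρ) atTop (𝓝 (kappa d / maxDensity d)) := by
  have hd1 : 1 ≤ d := by omega
  rw [kappa_div_maxDensity hd1]
  refine tendsto_order.2 ⟨fun a ha => ?_, fun a ha => ?_⟩
  · filter_upwards [eventually_ge_atTop 2] with n hn
    exact ha.trans_le (le_deltaN hd1 h hρ hn)
  · filter_upwards [deltaN_le hd1 (hρ₀.le.trans hρ) (half_pos (sub_pos.2 ha))] with n hn
    linarith

end Pool.Agent.Sausage
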